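import Mathlib
import Pool.Agent.U150.XG.Ge
import Pool.Agent.U115.GE.Ex
import Pool.Agent.U80.NP.Grp
import Pool.Agent.U80.NP.Dual

/-!
# Ranks of the successive prime twists of every member of the twist classes of the elliptic curves
# with a rational point of order two

`E : y² = x³ + a x² + b x`, neither `b` nor `c = a² - 4 b` a square; `E_N : y² = x³ + a N x² + b N² x` is the
quadratic twist by `N`. A prime is split if it is `1` modulo `8` and a nonzero square modulo all the odd primes
dividing `b c`, and inert if it is odd and neither `b` nor `c` is a square modulo it.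

Let `D` be ANY product of different split and inert primes (a fixed member), and `q_0, …, q_k` given split or
inert primes, `q_0` inert, such that `D q_0 ⋯ q_k` is `1` modulo `8` and a nonzero square modulo the odd primes
dividing `b c`. We twist `E_D` successively by primes `p_k, …, p_0` with `p_i ≡ q_i` modulo `8 |b c|`
(`N = D p_k ⋯ p_0`), and take means over the primes `p_0`, then over `p_1`, …, at last over `p_k`
(each mean is over the primes up to `X`, in the order of the conductor, of the height and of the discriminant,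
and then `X` tends to infinity). We prove, for every `D`:

* the iterated density of the `N` with Selmer rank `s(E_N) = s(E) + 2 r` exists for every `r`, and is the
  probability of `r` after `t` steps of the Markov chain `r → r - 1` with probability `1 - 2 ^ -r`,
  `r → r` and `r → r + 1` with probability `2 ^ -(r + 1)`, where `t` is the number of the split primes among
  `q_1, …, q_k`; the first law is that of the corank of `A + Y`, `A` an explicit matrix of quadratic symbols
  of `D` over the field with two elements and `Y` a random diagonal matrix;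
* `rank E_N(ℚ) ≤ s(E) + 2 d` with iterated lower density at least the sum of the probabilities of `0, …, d`;
* if `s(E) = 0`, the iterated density of the `N` with `E_N(ℚ)` finite (rank `0`) and `Ш(E_N/ℚ)[2^∞] = 0` exists
  and is the probability of `0`, which is at least `2 ^ -(n + t)`, `n` the number of the split primes of `D`;
* the distribution functions differ from those of the limit law
  `c_j = ∏_{i ≥ 0} (1 - 2^{-(2i+1)}) / ∏_{1 ≤ i ≤ j} (2 ^ i - 1)`, `c_0 = 0.4194…`, by at most
  `∏_{1 ≤ i ≤ n} (2 ^ i - 1) / 2 ^ t`.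

Authors: helper150 (this file and `U150/XG`), helper687 (the Markov chain of the symmetric matrices over the
field with two elements, `U687/Q2`), helper115, helper295, helper439, helper2, helper643, helper674, helper234,
helper158, helper998, helper798, helper756, helper79, helper958, helper388, helper796, helper739, helper80 (the
descent for the class of the twists, projects GD and GE, and their definitions in
`MP_e2b281_nt.SelmerRankLaw`).
-/

set_option autoImplicit false

open scoped Classical ENNReal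

namespace Pool.Agent.Results.MP_6073f3_nt.SuccessivePrimeTwists

open Pool.Agent.TH841.NF.D (rk Sha)
open Filter Matrix

/-- the curve `y² = x³ + a x² + b x` -/
def E (a b : ℤ) : WeierstrassCurve ℚ := { a₁ := 0, a₂ := (a : ℚ), a₃ := 0, a₄ := (b : ℚ), a₆ := 0 }

/-- the classes of the everywhere locally soluble quartics `N² = b₁ M⁴ + a M² e² + (b / b₁) e⁴` -/
def classes (a b : ℤ) : Set ℤ :=
  {b₁ : ℤ | Squarefree b₁ ∧ b₁ ∣ b ∧
    (∃ N M e : ℝ, (M ≠ 0 ∨ e ≠ 0) ∧
      N ^ 2 = (b₁ : ℝ) * M ^ 4 + (a : ℝ) * M ^ 2 * e ^ 2 + ((b / b₁ : ℤ) : ℝ) * e ^ 4) ∧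
    ∀ (p : ℕ) [Fact p.Prime], ∃ N M e : ℚ_[p], (M ≠ 0 ∨ e ≠ 0) ∧
      N ^ 2 = (b₁ : ℚ_[p]) * M ^ 4 + (a : ℚ_[p]) * M ^ 2 * e ^ 2
        + ((b / b₁ : ℤ) : ℚ_[p]) * e ^ 4}

/-- the exponent of the number of the classes -/
noncomputable def f (a b : ℤ) : ℕ := Nat.log 2 (classes a b).ncard

/-- the Selmer rank of the descent by the isogeny of degree two, an integer -/
noncomputable def s (a b : ℤ) : ℤ := (f a b : ℤ) + (f (-2 * a) (a ^ 2 - 4 * b) : ℤ) - 2

/-- `E(ℚ)` is finite and `Ш(E/ℚ)[2^∞] = 0` -/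
def TrivialTwo (W : WeierstrassCurve ℚ) : Prop :=
  Finite W.toAffine.Point ∧ ∀ (n : ℕ) (x : Sha W), 2 ^ n • x = 0 → x = 0

/-- `n` is `1` modulo `8` and a nonzero square modulo the odd primes dividing `b (a² - 4 b)`;
a prime with this property is called split -/
def Res (a b : ℤ) (n : ℕ) : Prop := n % 8 = 1 ∧ ∀ l : ℕ, l.Prime → l ≠ 2 →
  (l : ℤ) ∣ b * (a ^ 2 - 4 * b) → ¬ l ∣ n ∧ IsSquare (n : ZMod l)

/-- the inert primes -/
def Inert (a b : ℤ) (q : ℕ) : Prop := q ≠ 2 ∧ ¬ IsSquare (b : ZMod q) ∧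
  ¬ IsSquare ((a ^ 2 - 4 * b : ℤ) : ZMod q)

/-- the products of different split and inert primes -/
def Member (a b : ℤ) (D : ℕ) : Prop := Squarefree D ∧ ∀ p ∈ D.primeFactors, Res a b p ∨ Inert a b p

/-- the given primes, split or inert; the one of the last twist is inert -/
def Given (a b : ℤ) (q : ℕ → ℕ) : Prop :=
  (∀ i, (q i).Prime ∧ (Res a b (q i) ∨ Inert a b (q i))) ∧ Inert a b (q 0)

/-- the modulus `8 |b (a² - 4 b)|` -/
def modulus (a b : ℤ) : ℕ := 8 * (b * (a ^ 2 - 4 * b)).natAbs

/-- the primes up to `X` in the residue class of `r` -/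
def primes (a b : ℤ) (r X : ℕ) : Set ℕ := {p : ℕ | p.Prime ∧ p % modulus a b = r % modulus a b ∧ p ≤ X}

/-- the mean over the primes up to `X` in the residue class of `r`; those that divide `D` are left
out -/
noncomputable def average (a b : ℤ) (r D : ℕ) (T : ℕ → ℝ≥0∞) (X : ℕ) : ℝ≥0∞ :=
  (∑ᶠ p ∈ {p : ℕ | p ∈ primes a b r X ∧ ¬ p ∣ D}, T p) / ((primes a b r X).ncard : ℝ≥0∞)

/-- the iterated lower means of `T (D p_{k-1} ⋯ p_0)` -/
noncomputable def lowerMean (a b : ℤ) (q : ℕ → ℕ) (T : ℕ → ℝ≥0∞) : ℕ → ℕ → ℝ≥0∞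
  | 0, D => T D
  | k + 1, D => liminf (average a b (q k) D (fun p => lowerMean a b q T k (D * p))) atTop

/-- the iterated upper means of `T (D p_{k-1} ⋯ p_0)` -/
noncomputable def upperMean (a b : ℤ) (q : ℕ → ℕ) (T : ℕ → ℝ≥0∞) : ℕ → ℕ → ℝ≥0∞
  | 0, D => T D
  | k + 1, D => limsup (average a b (q k) D (fun p => upperMean a b q T k (D * p))) atTop

/-- `1` if `N` has the property `P`, and `0` if not -/
noncomputable def indicator (P : ℕ → Prop) (N : ℕ) : ℝ≥0∞ := if P N then 1 else 0

/-- the iterated density of the `N = D p_k ⋯ p_0` with the property `P` is `x`: the iterated lower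
and upper means of the indicator are `x` -/
def Density (a b : ℤ) (q : ℕ → ℕ) (P : ℕ → Prop) (k D : ℕ) (x : ℝ) : Prop :=
  lowerMean a b q (indicator P) (k + 1) D = ENNReal.ofReal x ∧
    upperMean a b q (indicator P) (k + 1) D = ENNReal.ofReal x

/-- the split prime factors of `D` -/
noncomputable def split (a b : ℤ) (D : ℕ) : Finset ℕ := D.primeFactors.filter fun p => Res a b p

/-- `1` if `m` is not a square modulo `p`, and `0` if it is -/
noncomputable def nonsq (p m : ℕ) : ZMod 2 := if IsSquare (m : ZMod p) then 0 else 1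

/-- `1` if no root of `x² + a x + b` modulo `p` is a square modulo `p`, and `0` otherwise -/
noncomputable def theta (a b : ℤ) (p : ℕ) : ZMod 2 :=
  if ∀ x : ZMod p, x ^ 2 + (a : ZMod p) * x + (b : ZMod p) = 0 → ¬ IsSquare x then 1 else 0

/-- The matrix over the field with two elements, with rows and columns indexed by the split prime
factors of `D`: the entry at `(i, j)` is `nonsq i j` for `i ≠ j`, and the entry at `(i, i)` is the sum
of `theta i` and of the `nonsq i l` for all the prime factors `l ≠ i` of `D`. -/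
noncomputable def mat (a b : ℤ) (D : ℕ) : Matrix (split a b D) (split a b D) (ZMod 2) :=
  Matrix.of fun i j =>
    if i = j then theta a b i + ∑ l ∈ D.primeFactors.erase i, nonsq i l else nonsq i j

/-- the share of the diagonals `y` for which the matrix of `D` plus `y` has corank `r` -/
noncomputable def law (a b : ℤ) (D : ℕ) (r : ℕ) : ℝ :=
  (Nat.card {y : split a b D → ZMod 2 //
    (mat a b D + diagonal y).rank + r = (split a b D).card} : ℝ) / 2 ^ (split a b D).card

/-- one step of the Markov chain: from `r` to `r - 1` with probability `1 - 2 ^ -r`, to `r` and to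
`r + 1` with probability `2 ^ -(r + 1)` each -/
noncomputable def markov (p : ℕ → ℝ) (r : ℕ) : ℝ :=
  (1 - (1 / 2) ^ (r + 1)) * p (r + 1) + (1 / 2) ^ (r + 1) * p r +
    (if r = 0 then 0 else (1 / 2) ^ r * p (r - 1))

/-- the number of the split primes among `q_1, …, q_k` -/
noncomputable def splitSteps (a b : ℤ) (q : ℕ → ℕ) (k : ℕ) : ℕ :=
  ((Finset.range k).filter fun i => Res a b (q (i + 1))).card

/-- the law after the steps of the split primes -/
noncomputable def chain (a b : ℤ) (q : ℕ → ℕ) (k D : ℕ) : ℕ → ℝ :=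
  markov^[splitSteps a b q k] (law a b D)

/-- the limit law -/
noncomputable def c (j : ℕ) : ℝ :=
  (∏' i : ℕ, (1 - (1 / 2 : ℝ) ^ (2 * i + 1))) / ∏ i ∈ Finset.range j, ((2 : ℝ) ^ (i + 1) - 1)

section proof

open Finset
open Pool.Agent.U115.GE (SelSet sel sel_dvd cork)
open Pool.Agent.U150.XG (En MM exists_en lo up ns Dat dat_ge Ig ig_zero cor_cork lo_main up_main
  mat_sub eqs QQ PR SR)
open Pool.Agent.U687.Q2 (cor pt ph UU TT mu prob)
open Pool.Agent.U150.RG (mE)

theorem theta_eq (a b : ℤ) (p : ℕ) : theta a b p = Pool.Agent.U115.GE.thetaG a b p := by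
  unfold theta Pool.Agent.U115.GE.thetaG Pool.Agent.U115.GE.RtG
  simp only [Nat.cast_one, mul_one, one_pow]

theorem mat_eq (a b : ℤ) (D : ℕ) : mat a b D = Pool.Agent.U115.GE.mat a b D := by
  ext i j
  have hL : mat a b D i j = if i = j then theta a b i + ∑ l ∈ D.primeFactors.erase i, nonsq i l
    else nonsq i j := rfl
  have hR : Pool.Agent.U115.GE.mat a b D i j =
      if (i : ℕ) = j then Pool.Agent.U115.GE.thetaG a b i +
        ∑ q ∈ Pool.Agent.U115.GE.ine a b D, Pool.Agent.Y698.SG.nq i q +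
        ∑ p ∈ (Pool.Agent.U115.GE.spl a b D).erase i, Pool.Agent.Y698.SG.nq i p
      else Pool.Agent.Y698.SG.nq i j := rfl
  rw [hL, hR]
  by_cases hij : i = j
  · rw [if_pos hij, if_pos (congrArg Subtype.val hij), theta_eq]
    have h1 : D.primeFactors.erase i =
        Pool.Agent.U115.GE.ine a b D ∪ (Pool.Agent.U115.GE.spl a b D).erase i := by
      have h2 : D.primeFactors = Pool.Agent.U115.GE.ine a b D ∪ Pool.Agent.U115.GE.spl a b D := by
        unfold Pool.Agent.U115.GE.ine Pool.Agent.U115.GE.spl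
        rw [Finset.union_comm]
        exact (Finset.filter_union_filter_not_eq _ _).symm
      conv_lhs => rw [h2]
      rw [Finset.erase_union_distrib, Finset.erase_eq_of_notMem
        (fun h => Finset.disjoint_left.1 (Pool.Agent.U115.GE.spl_ine a b D) h i.2)]
    rw [h1, Finset.sum_union (Finset.disjoint_of_subset_right (Finset.erase_subset _ _)
      (Pool.Agent.U115.GE.spl_ine a b D)), ← add_assoc]
    rfl
  · rw [if_neg hij, if_neg (fun h => hij (Subtype.ext h))]
    rfl

theorem dvd_of_sel {a b d : ℤ} (h : d ∈ SelSet a b) : d ∣ b := by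
  have h1 : d.natAbs ∣ b.natAbs := by
    by_cases hb : b = 0
    · rw [hb]; exact dvd_zero _
    rw [← Nat.prod_primeFactors_of_squarefree (Int.squarefree_natAbs.2 h.1)]
    refine Finset.prod_primes_dvd _ (fun p hp => (Nat.prime_of_mem_primeFactors hp).prime)
      fun p hp => ?_
    have h2 := sel_dvd h (Nat.prime_of_mem_primeFactors hp)
      (Int.natCast_dvd.2 (Nat.dvd_of_mem_primeFactors hp))
    exact Int.natCast_dvd.1 h2
  exact Int.natAbs_dvd_natAbs.1 h1

theorem classes_eq (a b : ℤ) : classes a b = SelSet a b := by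
  have key : ∀ (d : ℤ), Squarefree d → d ∣ b → ∀ (K : Type) [Field K] [CharZero K],
      ((b / d : ℤ) : K) = (b : K) / (d : K) := by
    intro d hd hdb K _ _
    exact Int.cast_div hdb (by exact_mod_cast hd.ne_zero)
  ext d
  constructor
  · rintro ⟨h1, h2, h3, h4⟩
    rw [key d h1 h2 ℝ] at h3
    refine ⟨h1, h3, fun p hp => ?_⟩
    have h5 := h4 p
    rw [key d h1 h2 ℚ_[p]] at h5
    exact h5
  · intro h
    have h2 := dvd_of_sel h
    obtain ⟨h1, h3, h4⟩ := h
    refine ⟨h1, h2, ?_, fun p hp => ?_⟩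
    · rw [key d h1 h2 ℝ]
      exact h3
    · have h5 := h4 p
      rw [key d h1 h2 ℚ_[p]]
      exact h5

theorem card_pow {a b : ℤ} (hb : b ≠ 0) : sel a b = 2 ^ f a b := by
  have h1 : classes a b = Pool.Agent.U80.NP.Sel a b := Pool.Agent.U80.NP.qs_eq a b
  have h2 := Pool.Agent.U80.NP.ncard_pow (a := a) hb
  unfold f sel
  rw [← classes_eq, h1]
  exact h2

theorem twE_eq (a b : ℤ) (D : ℕ) : Pool.Agent.U115.GE.twE a b D = E (a * D) (b * D ^ 2) := by
  rw [Pool.Agent.U115.GE.twE_eq]
  rfl

theorem two_inj {m n : ℕ} (h : 2 ^ m = 2 ^ n) : m = n := Nat.pow_right_injective le_rfl h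

/-- the descent -/
theorem key {a b : ℤ} (hb0 : b ≠ 0) (hc0 : a ^ 2 - 4 * b ≠ 0) {D : ℕ}
    (h' : Pool.Agent.U115.GE.Class a b D) :
    s (a * D) (b * D ^ 2) = s a b + 2 * cork a b D ∧
    (rk (E (a * D) (b * D ^ 2)) : ℤ) ≤ s a b + 2 * cork a b D := by
  have hG := Pool.Agent.U739.GE.t_GOOD
  have hB := Pool.Agent.U796.GE.t_BND
  have hH := Pool.Agent.U115.GE.class_hg hb0 hc0 h'
  have hk := Pool.Agent.U115.GE.class_kap hb0 hc0 h'
  have hD := Pool.Agent.U115.GE.prod_eq (a := a) (b := b) h'.1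
  obtain ⟨h1, h2⟩ := hH.bound hG hB hD
  have e1 := hH.sel_eq hG
  have e2 := hH.sel_eq' hG
  rw [← hD, hk] at e1 e2
  rw [hk] at h2
  rw [card_pow (hH.b0 hD), card_pow hb0, ← pow_add] at e1
  rw [card_pow (hH.c0 hD), card_pow hc0, ← pow_add] at e2
  have f1 : f (a * D) (b * D ^ 2) = f a b + cork a b D := by
    have := two_inj e1
    omega
  have f2 : f (-2 * (a * D)) ((a * D) ^ 2 - 4 * (b * D ^ 2)) =
      f (-2 * a) (a ^ 2 - 4 * b) + cork a b D := by
    have := two_inj e2
    omega
  refine ⟨?_, ?_⟩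
  · unfold s
    rw [f1, f2]
    push_cast
    ring
  · rw [twE_eq] at h2
    have hX0 : 0 < Nat.card {x : Sha (Pool.Agent.U115.GE.twE a b D) //
        2 • x = 0} := Nat.card_pos_iff.2 ⟨⟨⟨0, smul_zero 2⟩⟩, h1⟩
    rw [twE_eq] at hX0
    rw [card_pow hb0, card_pow hc0, ← pow_mul, ← pow_add, ← pow_add] at h2
    have h3 : 2 ^ (rk (E (a * D) (b * D ^ 2)) + 2) ≤
        2 ^ (cork a b D * 2 + (f a b + f (-2 * a) (a ^ 2 - 4 * b))) := by
      refine le_trans ?_ h2
      have h4 : 2 ^ (rk (E (a * D) (b * D ^ 2)) + 2) = 4 * 2 ^ rk (E (a * D) (b * D ^ 2)) := by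
        rw [pow_add]; ring
      rw [h4]
      exact Nat.le_mul_of_pos_right _ hX0
    have h5 := (Nat.pow_le_pow_iff_right (by norm_num : 1 < 2)).1 h3
    unfold s
    omega

theorem triv {a b : ℤ} (hb : ¬ IsSquare b) (hc : ¬ IsSquare (a ^ 2 - 4 * b)) (hs : s a b = 0) {D : ℕ}
    (h' : Pool.Agent.U115.GE.Class a b D) :
    TrivialTwo (E (a * D) (b * D ^ 2)) ↔ cork a b D = 0 := by
  have hb0 : b ≠ 0 := by
    rintro rfl
    exact hb ⟨0, by norm_num⟩
  have hc0 : a ^ 2 - 4 * b ≠ 0 := by
    intro h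
    exact hc ⟨0, by rw [h]; norm_num⟩
  have hH := Pool.Agent.U115.GE.class_hg hb0 hc0 h'
  have hk := Pool.Agent.U115.GE.class_kap hb0 hc0 h'
  have hD := Pool.Agent.U115.GE.prod_eq (a := a) (b := b) h'.1
  have h4 : sel a b * sel (-2 * a) (a ^ 2 - 4 * b) = 4 := by
    rw [card_pow hb0, card_pow hc0, ← pow_add]
    unfold s at hs
    have : f a b + f (-2 * a) (a ^ 2 - 4 * b) = 2 := by omega
    rw [this]
    norm_num
  have h5 := hH.iff Pool.Agent.U739.GE.t_GOOD Pool.Agent.U796.GE.t_BND hb hc h4 hD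
  unfold TrivialTwo
  rw [← twE_eq]
  refine h5.trans ?_
  rw [hk]
  constructor
  · intro h
    by_contra h0
    have := Nat.one_lt_two_pow h0
    omega
  · intro h
    rw [h, pow_zero]

/-- the classes of the steps -/
abbrev CC (a b : ℤ) (q : ℕ → ℕ) (k l : ℕ) : Prop := l % QQ a b = q k % QQ a b

theorem lowerMean_eq (a b : ℤ) (q : ℕ → ℕ) (T : ℕ → ℝ≥0∞) (k : ℕ) :
    ∀ D, lowerMean a b q T k D = lo (CC a b q) T k D := by
  induction k with
  | zero => intro D; rfl
  | succ k ih =>
    intro D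
    have h : (fun p => lowerMean a b q T k (D * p)) = fun p => lo (CC a b q) T k (D * p) :=
      funext fun p => ih _
    show liminf (average a b (q k) D (fun p => lowerMean a b q T k (D * p))) atTop =
      liminf (mE (PR (CC a b q k)) (SR (CC a b q k) D) (fun l => lo (CC a b q) T k (D * l))) atTop
    rw [h]
    rfl

theorem upperMean_eq (a b : ℤ) (q : ℕ → ℕ) (T : ℕ → ℝ≥0∞) (k : ℕ) :
    ∀ D, upperMean a b q T k D = up (CC a b q) T k D := by
  induction k with
  | zero => intro D; rfl
  | succ k ih =>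
    intro D
    have h : (fun p => upperMean a b q T k (D * p)) = fun p => up (CC a b q) T k (D * p) :=
      funext fun p => ih _
    show limsup (average a b (q k) D (fun p => upperMean a b q T k (D * p))) atTop =
      limsup (mE (PR (CC a b q k)) (SR (CC a b q k) D) (fun l => up (CC a b q) T k (D * l))) atTop
    rw [h]
    rfl

/-- the first law -/
theorem law_mu {a b : ℤ} {D n : ℕ} {P : Fin n → ℕ} (h : En (Pool.Agent.U115.GE.Res a b) D n P)
    (r : ℕ) : law a b D r = mu (MM (Pool.Agent.U115.GE.thetaG a b) D P) r := by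
  rw [Pool.Agent.U687.Q2.mu_share]
  have hn : (split a b D).card = n := h.card
  unfold law
  rw [hn]
  congr 2
  refine Nat.card_congr ((Equiv.arrowCongr (eqs h).symm (Equiv.refl (ZMod 2))).subtypeEquiv
    fun y => ?_)
  have h1 : MM (Pool.Agent.U115.GE.thetaG a b) D P +
      diagonal (Equiv.arrowCongr (eqs h).symm (Equiv.refl (ZMod 2)) y) =
      (Pool.Agent.U115.GE.mat a b D + diagonal y).submatrix (eqs h) (eqs h) := by
    rw [mat_sub h]
    ext i j
    rw [Matrix.submatrix_apply, Matrix.add_apply, Matrix.add_apply, Matrix.submatrix_apply,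
      Matrix.diagonal_apply, Matrix.diagonal_apply]
    congr 1
    by_cases hij : i = j
    · subst hij
      rw [if_pos rfl, if_pos rfl]
      rfl
    · rw [if_neg hij, if_neg (fun h' => hij ((eqs h).injective h'))]
  rw [h1, Matrix.rank_submatrix, mat_eq]
  rfl

theorem chain_eq {a b : ℤ} (q : ℕ → ℕ) (k : ℕ) {D n : ℕ} {P : Fin n → ℕ}
    (h : En (Pool.Agent.U115.GE.Res a b) D n P) :
    chain a b q k D = TT^[ns (fun i => Pool.Agent.U115.GE.Res a b (q i)) k]
      (mu (MM (Pool.Agent.U115.GE.thetaG a b) D P)) := by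
  have h1 : law a b D = mu (MM (Pool.Agent.U115.GE.thetaG a b) D P) := funext fun r => law_mu h r
  unfold chain
  rw [h1]
  rfl

theorem c_eq (j : ℕ) : c j = prob j := by
  unfold c prob Pool.Agent.U687.Q2.ee Pool.Agent.U687.Q2.lim2
  rw [mul_one_div]

variable {a b : ℤ}

/-- the iterated lower means of a function that is at least a function of the corank -/
theorem low_of (hb : ¬ IsSquare b) (hc : ¬ IsSquare (a ^ 2 - 4 * b)) {q : ℕ → ℕ}
    (hq : Given a b q) (T : ℕ → ℝ≥0∞) (G : ℕ → ℝ) (hG : ∀ r, 0 ≤ G r)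
    (hT : ∀ N, Pool.Agent.U115.GE.Class a b N → ENNReal.ofReal (G (cork a b N)) ≤ T N) (k : ℕ)
    {D n : ℕ} {P : Fin n → ℕ} (hD : Member a b D) (hR : Res a b (D * ∏ i ∈ Finset.range (k + 1), q i))
    (h : En (Pool.Agent.U115.GE.Res a b) D n P) :
    ENNReal.ofReal (ph (UU^[ns (fun i => Pool.Agent.U115.GE.Res a b (q i)) k] G)
      (MM (Pool.Agent.U115.GE.thetaG a b) D P)) ≤ lowerMean a b q T (k + 1) D := by
  have hin : ∀ p : ℕ, p.Prime → Inert a b p → Pool.Agent.U115.GE.Inert a b p := fun p hp h =>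
    ⟨hp, h⟩
  have hd := dat_ge hb hc q (fun i => ⟨(hq.1 i).1, (hq.1 i).2.imp id (hin _ (hq.1 i).1)⟩)
    (hin _ (hq.1 0).1 hq.2)
  rw [lowerMean_eq]
  refine lo_main (Pool.Agent.U115.GE.thetaG a b) hd T G hG (fun N m P' hI hE => ?_) k D n P
    ⟨hD.1, fun p hp => (hD.2 p hp).imp id (hin p (Nat.prime_of_mem_primeFactors hp)), hR⟩ h
  rw [cor_cork hE]
  exact hT N (ig_zero hI)

/-- the iterated upper means of a function that is at most a function of the corank -/
theorem up_of (hb : ¬ IsSquare b) (hc : ¬ IsSquare (a ^ 2 - 4 * b)) {q : ℕ → ℕ}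
    (hq : Given a b q) (T : ℕ → ℝ≥0∞) (G : ℕ → ℝ) (hG : ∀ r, 0 ≤ G r)
    (hT : ∀ N, Pool.Agent.U115.GE.Class a b N → T N ≤ ENNReal.ofReal (G (cork a b N))) (k : ℕ)
    {D n : ℕ} {P : Fin n → ℕ} (hD : Member a b D) (hR : Res a b (D * ∏ i ∈ Finset.range (k + 1), q i))
    (h : En (Pool.Agent.U115.GE.Res a b) D n P) :
    upperMean a b q T (k + 1) D ≤
      ENNReal.ofReal (ph (UU^[ns (fun i => Pool.Agent.U115.GE.Res a b (q i)) k] G)
      (MM (Pool.Agent.U115.GE.thetaG a b) D P)) := by
  have hin : ∀ p : ℕ, p.Prime → Inert a b p → Pool.Agent.U115.GE.Inert a b p := fun p hp h =>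
    ⟨hp, h⟩
  have hd := dat_ge hb hc q (fun i => ⟨(hq.1 i).1, (hq.1 i).2.imp id (hin _ (hq.1 i).1)⟩)
    (hin _ (hq.1 0).1 hq.2)
  rw [upperMean_eq]
  refine up_main (Pool.Agent.U115.GE.thetaG a b) hd T G hG (fun N m P' hI hE => ?_) k D n P
    ⟨hD.1, fun p hp => (hD.2 p hp).imp id (hin p (Nat.prime_of_mem_primeFactors hp)), hR⟩ h
  rw [cor_cork hE]
  exact hT N (ig_zero hI)

theorem lower_le_upper (q : ℕ → ℕ) (T : ℕ → ℝ≥0∞) (k : ℕ) :
    ∀ D, lowerMean a b q T k D ≤ upperMean a b q T k D := by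
  induction k with
  | zero => intro D; exact le_rfl
  | succ k ih =>
    intro D
    refine (liminf_le_limsup).trans (limsup_le_limsup (Eventually.of_forall fun X => ?_))
    exact Pool.Agent.U150.RG.mE_mono (P := PR (CC a b q k)) (S := SR (CC a b q k) D)
      (fun X => (Pool.Agent.U150.XG.PR_fin _ X).subset (Pool.Agent.U150.XG.SR_sub _ _ X))
      (fun X p _ => ih _) X

theorem steps_tendsto (q : ℕ → ℕ) (h : ∃ᶠ i in atTop, Res a b (q i)) :
    Tendsto (splitSteps a b q) atTop atTop := by
  have hs : ∀ k, splitSteps a b q (k + 1) =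
      if Res a b (q (k + 1)) then splitSteps a b q k + 1 else splitSteps a b q k :=
    fun k => Pool.Agent.U150.XG.ns_succ (fun i => Res a b (q i)) k
  have hm : Monotone (splitSteps a b q) := monotone_nat_of_le_succ fun k => by
    rw [hs]
    split_ifs <;> omega
  refine tendsto_atTop_atTop_of_monotone hm fun m => ?_
  induction m with
  | zero => exact ⟨0, Nat.zero_le _⟩
  | succ m ih =>
    obtain ⟨k, hk⟩ := ih
    obtain ⟨j, hj, hR⟩ := (Filter.frequently_atTop.1 h) (k + 1)
    obtain ⟨i, rfl⟩ : ∃ i, j = i + 1 := ⟨j - 1, by omega⟩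
    refine ⟨i + 1, ?_⟩
    rw [hs, if_pos hR]
    have := hm (show k ≤ i by omega)
    omega

/-- a property which holds for the numbers of the class with corank `r` exactly -/
theorem dens_of (hb : ¬ IsSquare b) (hc : ¬ IsSquare (a ^ 2 - 4 * b)) {q : ℕ → ℕ}
    (hq : Given a b q) (Pr : ℕ → Prop) (r : ℕ)
    (hT : ∀ N, Pool.Agent.U115.GE.Class a b N → (Pr N ↔ cork a b N = r)) (k : ℕ)
    {D : ℕ} (hD : Member a b D) (hR : Res a b (D * ∏ i ∈ Finset.range (k + 1), q i)) :
    Density a b q Pr k D (chain a b q k D r) := by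
  obtain ⟨P, h⟩ := exists_en (Pool.Agent.U115.GE.Res a b) D
  have h1 := low_of hb hc hq (indicator Pr) (pt r) (Pool.Agent.U687.Q2.pt_nonneg r) (fun N hN => by
    unfold indicator pt
    by_cases h0 : cork a b N = r
    · rw [if_pos h0, if_pos ((hT N hN).2 h0), ENNReal.ofReal_one]
    · rw [if_neg h0, ENNReal.ofReal_zero]
      exact zero_le) k hD hR h
  have h2 := up_of hb hc hq (indicator Pr) (pt r) (Pool.Agent.U687.Q2.pt_nonneg r) (fun N hN => by
    unfold indicator pt
    by_cases h0 : cork a b N = r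
    · rw [if_pos h0, if_pos ((hT N hN).2 h0), ENNReal.ofReal_one]
    · rw [if_neg h0, if_neg fun h3 => h0 ((hT N hN).1 h3)]
      exact zero_le) k hD hR h
  rw [Pool.Agent.U150.XG.law_eq, ← chain_eq q k h] at h1 h2
  have h3 := lower_le_upper (a := a) (b := b) q (indicator Pr) (k + 1) D
  exact ⟨le_antisymm (h3.trans h2) h1, le_antisymm h2 (h1.trans h3)⟩

end proof

open Pool.Agent.U150.XG (MM ns) in
/-- **Ranks of the successive prime twists of every member of the class.** -/
theorem result (a b : ℤ) (hb : ¬ IsSquare b) (hc : ¬ IsSquare (a ^ 2 - 4 * b)) (q : ℕ → ℕ)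
    (hq : Given a b q) :
    (∀ (k D : ℕ), Member a b D → Res a b (D * ∏ i ∈ Finset.range (k + 1), q i) →
      (∀ r : ℕ, Density a b q (fun N => s (a * N) (b * N ^ 2) = s a b + 2 * r) k D
        (chain a b q k D r)) ∧
      (∀ d : ℕ, ENNReal.ofReal (∑ r ∈ Finset.range (d + 1), chain a b q k D r) ≤
        lowerMean a b q (indicator fun N => (rk (E (a * N) (b * N ^ 2)) : ℤ) ≤ s a b + 2 * d)
          (k + 1) D) ∧
      (s a b = 0 → Density a b q (fun N => TrivialTwo (E (a * N) (b * N ^ 2))) k D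
        (chain a b q k D 0)) ∧
      (1 / 2 : ℝ) ^ ((split a b D).card + splitSteps a b q k) ≤ chain a b q k D 0 ∧
      ∀ r : ℕ, |∑ j ∈ Finset.range r, chain a b q k D j - ∑ j ∈ Finset.range r, c j| ≤
        (∏ i ∈ Finset.range (split a b D).card, ((2 : ℝ) ^ (i + 1) - 1)) /
          2 ^ splitSteps a b q k) ∧
    ((∃ᶠ i in atTop, Res a b (q i)) → ∀ D r : ℕ,
      Tendsto (fun k => chain a b q k D r) atTop (nhds (c r))) ∧
    HasSum c 1 ∧ 0.4194 < c 0 ∧ c 0 < 0.4195 ∧ s 13 128 = 0 := by
  have hb0 : b ≠ 0 := by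
    rintro rfl
    exact hb ⟨0, by norm_num⟩
  have hc0 : a ^ 2 - 4 * b ≠ 0 := by
    intro h
    exact hc ⟨0, by rw [h]; norm_num⟩
  have hcp : c = Pool.Agent.U687.Q2.prob := funext c_eq
  obtain ⟨-, -, -, l1, l2⟩ := Pool.Agent.U687.Q2.lim2_facts
  refine ⟨fun k D hD hR => ?_, fun hF D r => ?_, ?_, ?_, ?_, ?_⟩
  · obtain ⟨P, h⟩ := Pool.Agent.U150.XG.exists_en (Pool.Agent.U115.GE.Res a b) D
    have hce := chain_eq q k h
    refine ⟨fun r => ?_, fun d => ?_, fun hs => ?_, ?_, fun r => ?_⟩
    · refine dens_of hb hc hq _ r (fun N hN => ?_) k hD hR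
      rw [(key hb0 hc0 hN).1]
      omega
    · have h1 := low_of hb hc hq
        (indicator fun N => (rk (E (a * N) (b * N ^ 2)) : ℤ) ≤ s a b + 2 * d)
        (fun r => if r < d + 1 then 1 else 0) (fun r => by
          split_ifs
          · exact zero_le_one
          · exact le_rfl) (fun N hN => by
          unfold indicator
          by_cases h0 : Pool.Agent.U115.GE.cork a b N < d + 1
          · rw [if_pos h0, if_pos, ENNReal.ofReal_one]
            have := (key hb0 hc0 hN).2
            omega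
          · rw [if_neg h0, ENNReal.ofReal_zero]
            exact zero_le) k hD hR h
      refine le_trans (ENNReal.ofReal_le_ofReal ?_) h1
      rw [hce, Pool.Agent.U150.XG.ph_law _ _ _ (max (d + 1)
        ((D.primeFactors.filter (Pool.Agent.U115.GE.Res a b)).card +
          Pool.Agent.U150.XG.ns (fun i => Pool.Agent.U115.GE.Res a b (q i)) k + 1)) (by
            have := le_max_right (d + 1)
              ((D.primeFactors.filter (Pool.Agent.U115.GE.Res a b)).card +
                Pool.Agent.U150.XG.ns (fun i => Pool.Agent.U115.GE.Res a b (q i)) k + 1)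
            omega)]
      have h2 : ∀ (m : ℕ) (μ : ℕ → ℝ), (∀ r, 0 ≤ μ r) → d + 1 ≤ m →
          ∑ r ∈ Finset.range (d + 1), μ r ≤
          ∑ r ∈ Finset.range m, (if r < d + 1 then (1 : ℝ) else 0) * μ r := by
        intro m μ hμ hm
        have e1 : ∑ r ∈ Finset.range (d + 1), μ r =
            ∑ r ∈ Finset.range (d + 1), (if r < d + 1 then (1 : ℝ) else 0) * μ r :=
          Finset.sum_congr rfl fun r hr => by rw [if_pos (Finset.mem_range.1 hr), one_mul]
        rw [e1]
        refine Finset.sum_le_sum_of_subset_of_nonneg (Finset.range_mono hm) fun r _ _ => ?_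
        refine mul_nonneg ?_ (hμ r)
        split_ifs
        · exact zero_le_one
        · exact le_rfl
      exact h2 _ _ (Pool.Agent.U150.XG.TTn_nonneg (Pool.Agent.U687.Q2.mu_nonneg _) _)
        (le_max_left _ _)
    · exact dens_of hb hc hq _ 0 (fun N hN => triv hb hc hs hN) k hD hR
    · rw [hce]
      exact Pool.Agent.U150.XG.law_ge _ _
    · rw [hce, hcp]
      exact Pool.Agent.U150.XG.law_dist _ _ r
  · obtain ⟨P, h⟩ := Pool.Agent.U150.XG.exists_en (Pool.Agent.U115.GE.Res a b) D
    have hst := steps_tendsto q hF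
    set B : ℝ := ∏ i ∈ Finset.range (D.primeFactors.filter (Pool.Agent.U115.GE.Res a b)).card,
      ((2 : ℝ) ^ (i + 1) - 1) with hB
    have h1 : ∀ k, |chain a b q k D r - c r| ≤ 2 * (B / 2 ^ splitSteps a b q k) := by
      intro k
      rw [chain_eq q k h, hcp]
      have d1 := Pool.Agent.U150.XG.law_dist (MM (Pool.Agent.U115.GE.thetaG a b) D P)
        (ns (fun i => Pool.Agent.U115.GE.Res a b (q i)) k) r
      have d2 := Pool.Agent.U150.XG.law_dist (MM (Pool.Agent.U115.GE.thetaG a b) D P)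
        (ns (fun i => Pool.Agent.U115.GE.Res a b (q i)) k) (r + 1)
      rw [Finset.sum_range_succ, Finset.sum_range_succ] at d2
      have e : splitSteps a b q k = ns (fun i => Pool.Agent.U115.GE.Res a b (q i)) k := rfl
      rw [e]
      rw [abs_le] at d1 d2 ⊢
      constructor <;> linarith [d1.1, d1.2, d2.1, d2.2]
    have h2 : Tendsto (fun k => 2 * (B / 2 ^ splitSteps a b q k)) atTop (nhds 0) := by
      have h3 : Tendsto (fun m : ℕ => 2 * (B / 2 ^ m)) atTop (nhds 0) := by
        have h4 := (tendsto_pow_atTop_nhds_zero_of_lt_one (r := (1 / 2 : ℝ)) (by norm_num)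
          (by norm_num)).const_mul (2 * B)
        rw [mul_zero] at h4
        refine h4.congr fun m => ?_
        rw [one_div, inv_pow]
        ring
      exact h3.comp hst
    rw [tendsto_iff_norm_sub_tendsto_zero]
    refine squeeze_zero (fun k => norm_nonneg _) (fun k => ?_) h2
    rw [Real.norm_eq_abs]
    exact h1 k
  · rw [hcp]
    exact Pool.Agent.U687.Q2.prob_hasSum
  · rw [hcp, Pool.Agent.U687.Q2.prob_zero]
    exact l1
  · rw [hcp, Pool.Agent.U687.Q2.prob_zero]
    exact l2
  · obtain ⟨e1, e2⟩ := Pool.Agent.U115.GE.sel_X14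
    have n1 : (128 : ℤ) ≠ 0 := by norm_num
    have n2 : ((13 : ℤ) ^ 2 - 4 * 128) ≠ 0 := by norm_num
    rw [card_pow n1] at e1
    rw [card_pow n2] at e2
    have f1 : f 13 128 = 1 := two_inj (by rw [e1]; norm_num)
    have f2 : f (-2 * 13) (13 ^ 2 - 4 * 128) = 1 := two_inj (by rw [e2]; norm_num)
    unfold s
    rw [f1, f2]
    norm_num

end Pool.Agent.Results.MP_6073f3_nt.SuccessivePrimeTwists
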