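import Mathlib
import Pool.Agent.TH841.SH.ShaDef
import Pool.Agent.U409.SH.Tor
import Pool.Agent.U214.PT.ShaQ
import Pool.Agent.U214.DO.D

/-!
# All moments of `2 ^ rank * #Ш[2]` for curves with full 2-torsion ordered by the discriminant

The curves `E_(a,b) : y² = x (x - a) (x - b)` with `gcd(a,b) = 1` are ordered by the absolute value
of their discriminant `Δ = 16 (a b (a - b))²`. There are about `D ^ (1/3)` pairs `(a, b)` with
`0 < |Δ| ≤ D`, and for every `r` the mean of the `r`-th power of `2 ^ rank * #Ш[2]` over these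
pairs is at most `C (1 + log D) ^ kap r`, `kap r = (2 ^ r - 1) (1 - 2 / 2 ^ r)`. In particular the
average rank is bounded.
-/

set_option autoImplicit false

namespace Pool.Agent.Results.MP_6073f3_nt.DiscriminantOrdering

open Finset
open Pool.Agent.TH841.SH.D (ShaTor rk)

/-- the curve `y² = x (x - a) (x - b)` over `ℚ` -/
def E (a b : ℤ) : WeierstrassCurve ℚ := ⟨0, -((a : ℚ) + b), 0, (a : ℚ) * b, 0⟩

/-- `2 ^ rank * #Ш[2]` for the elliptic curve `W` over `ℚ` (`ShaTor W 2` are the elements of the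
Tate-Shafarevich group killed by `2`, `rk W` is the rank of the group of the rational points) -/
noncomputable def M (W : WeierstrassCurve ℚ) : ℕ := 2 ^ rk W * Nat.card (ShaTor W 2)

/-- the exponent; `kap 0 = kap 1 = 0` -/
noncomputable def kap (r : ℕ) : ℝ := ((2 : ℝ) ^ r - 1) * (1 - 2 / 2 ^ r)

/-- all the pairs `(a, b)` of coprime integers such that the discriminant of `y² = x (x - a) (x - b)`
is nonzero and of absolute value at most `D` -/
def S (D : ℕ) : Set (ℤ × ℤ) := {w | IsCoprime w.1 w.2 ∧ (E w.1 w.2).Δ ≠ 0 ∧ |(E w.1 w.2).Δ| ≤ D}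

lemma disc (a b : ℤ) : (E a b).Δ = ((16 * (a * b * (a - b)) ^ 2 : ℤ) : ℚ) := by
  unfold E WeierstrassCurve.Δ WeierstrassCurve.b₂ WeierstrassCurve.b₄ WeierstrassCurve.b₆
    WeierstrassCurve.b₈
  push_cast
  ring

open Pool.Agent.U214.DO in
lemma S_eq (D : ℕ) : S D = (DP (Nat.sqrt (D / 16)) : Finset (ℤ × ℤ)) := by
  ext w
  have hd : (E w.1 w.2).Δ ≠ 0 ↔ w.1 * w.2 * (w.1 - w.2) ≠ 0 := by
    rw [disc, Int.cast_ne_zero]
    constructor
    · intro h h0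
      apply h
      rw [h0]
      norm_num
    · intro h
      exact mul_ne_zero (by norm_num) (pow_ne_zero 2 h)
  have hb : |(E w.1 w.2).Δ| ≤ D ↔ |w.1 * w.2 * (w.1 - w.2)| ≤ (Nat.sqrt (D / 16) : ℕ) := by
    rw [disc, abs_of_nonneg (by exact_mod_cast (by positivity : (0 : ℤ) ≤ 16 * (w.1 * w.2 * (w.1 - w.2)) ^ 2))]
    rw [show ((16 * (w.1 * w.2 * (w.1 - w.2)) ^ 2 : ℤ) : ℚ) ≤ (D : ℚ) ↔
      (16 * (w.1 * w.2 * (w.1 - w.2)) ^ 2 : ℤ) ≤ (D : ℤ) by exact_mod_cast Iff.rfl]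
    rw [Int.abs_eq_natAbs, Nat.cast_le, Nat.le_sqrt', Nat.le_div_iff_mul_le (by norm_num)]
    zify
    rw [sq_abs, mul_comm]
  unfold S
  simp only [Set.mem_setOf_eq]
  unfold DP
  rw [mem_coe, mem_filter, mem_product, mem_Icc, mem_Icc, hd, hb]
  constructor
  · rintro ⟨h1, h2, h3⟩
    have hx0 : w.1 ≠ 0 := left_ne_zero_of_mul (left_ne_zero_of_mul h2)
    have hy0 : w.2 ≠ 0 := right_ne_zero_of_mul (left_ne_zero_of_mul h2)
    have hz0 : w.1 - w.2 ≠ 0 := right_ne_zero_of_mul h2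
    have k1 : |w.1| ≤ |w.1 * w.2 * (w.1 - w.2)| := by
      rw [mul_assoc, abs_mul]
      exact le_mul_of_one_le_right (abs_nonneg _) (Int.one_le_abs (mul_ne_zero hy0 hz0))
    have k2 : |w.2| ≤ |w.1 * w.2 * (w.1 - w.2)| := by
      rw [mul_comm w.1, mul_assoc, abs_mul]
      exact le_mul_of_one_le_right (abs_nonneg _) (Int.one_le_abs (mul_ne_zero hx0 hz0))
    have k3 := abs_le.1 (k1.trans h3)
    have k4 := abs_le.1 (k2.trans h3)
    exact ⟨⟨k3, k4⟩, h1, h2, h3⟩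
  · rintro ⟨-, h⟩
    exact h

/-- **All the moments in the ordering by the discriminant.** -/
theorem result :
    (∀ D : ℕ, (S D).Finite) ∧
    (∃ C : ℝ, ∀ D : ℕ, 64 ≤ D → (D : ℝ) ^ ((1 : ℝ) / 3) ≤ C * (S D).ncard ∧
      ((S D).ncard : ℝ) ≤ C * (D : ℝ) ^ ((1 : ℝ) / 3)) ∧
    ∀ r : ℕ, ∃ C : ℝ, ∀ D : ℕ, 64 ≤ D →
      (∑ᶠ w ∈ S D, (M (E w.1 w.2) : ℝ) ^ r) / (S D).ncard ≤ C * (1 + Real.log D) ^ kap r ∧
      ∀ R : ℕ, ((S D ∩ {w | 2 ^ R ≤ M (E w.1 w.2)}).ncard : ℝ) / (S D).ncard ≤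
        C / 2 ^ (r * R) * (1 + Real.log D) ^ kap r := by
  classical
  have hM : ∀ a b : ℤ, (Pool.Agent.U409.SH.qq a b : ℝ) = (M (E a b) : ℝ) := by
    intro a b
    rw [Pool.Agent.U409.SH.qq_eq]
    exact congrArg (fun x : ℕ => (x : ℝ)) (Pool.Agent.U409.SH.Mn_eq _).symm
  have hsym : ∀ a b : ℤ, (Pool.Agent.U409.SH.qq a b : ℝ) = Pool.Agent.U409.SH.qq b a := by
    intro a b
    rw [hM, hM]
    congr 2
    unfold E
    rw [add_comm (a : ℚ), mul_comm (a : ℚ)]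
  have hcard : ∀ D : ℕ, (S D).ncard = (Pool.Agent.U214.DO.DP (Nat.sqrt (D / 16))).card := by
    intro D
    rw [S_eq, Set.ncard_coe_finset]
  -- sizes
  have hZ : ∀ D : ℕ, 64 ≤ D → 2 ≤ Nat.sqrt (D / 16) := by
    intro D hD
    rw [Nat.le_sqrt]
    omega
  have hlow : ∀ D : ℕ, 64 ≤ D → (D : ℝ) ^ ((1 : ℝ) / 3) ≤
      4 * ((Nat.sqrt (D / 16) : ℕ) : ℝ) ^ ((2 : ℝ) / 3) := by
    intro D hD
    have h1 := Nat.lt_succ_sqrt (D / 16)
    have h2 := hZ D hD
    set Z := Nat.sqrt (D / 16) with hZd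
    have h3 : D ≤ 64 * Z ^ 2 := by
      have h4 : (Z + 1) * (Z + 1) ≤ 4 * Z ^ 2 := by nlinarith
      have h5 : D / 16 < 4 * Z ^ 2 := lt_of_lt_of_le h1 h4
      omega
    have h3r : (D : ℝ) ≤ 64 * (Z : ℝ) ^ 2 := by exact_mod_cast h3
    calc (D : ℝ) ^ ((1 : ℝ) / 3) ≤ (64 * (Z : ℝ) ^ 2) ^ ((1 : ℝ) / 3) :=
          Real.rpow_le_rpow (Nat.cast_nonneg _) h3r (by norm_num)
      _ = 4 * (Z : ℝ) ^ ((2 : ℝ) / 3) := by
          rw [Real.mul_rpow (by norm_num) (by positivity), ← Real.rpow_natCast (Z : ℝ) 2,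
            ← Real.rpow_mul (Nat.cast_nonneg _), show (64 : ℝ) = 4 ^ (3 : ℝ) by norm_num,
            ← Real.rpow_mul (by norm_num)]
          norm_num
  have hupp : ∀ D : ℕ, 64 ≤ D → ((Nat.sqrt (D / 16) : ℕ) : ℝ) ^ ((2 : ℝ) / 3) ≤
      (D : ℝ) ^ ((1 : ℝ) / 3) := by
    intro D hD
    have h1 := Nat.sqrt_le' (D / 16)
    set Z := Nat.sqrt (D / 16) with hZd
    have h3 : Z ^ 2 ≤ D := h1.trans (Nat.div_le_self _ _)
    have h3r : (Z : ℝ) ^ 2 ≤ (D : ℝ) := by exact_mod_cast h3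
    calc (Z : ℝ) ^ ((2 : ℝ) / 3) = ((Z : ℝ) ^ 2) ^ ((1 : ℝ) / 3) := by
          rw [← Real.rpow_natCast (Z : ℝ) 2, ← Real.rpow_mul (Nat.cast_nonneg _)]
          norm_num
      _ ≤ _ := Real.rpow_le_rpow (by positivity) h3r (by norm_num)
  have hlog : ∀ D : ℕ, 64 ≤ D → Real.log ((Nat.sqrt (D / 16) : ℕ) : ℝ) ≤ Real.log D ∧
      0 ≤ Real.log ((Nat.sqrt (D / 16) : ℕ) : ℝ) := by
    intro D hD
    have h2 := hZ D hD
    have h3 : Nat.sqrt (D / 16) ≤ D := (Nat.sqrt_le_self _).trans (Nat.div_le_self _ _)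
    have h4 : (2 : ℝ) ≤ ((Nat.sqrt (D / 16) : ℕ) : ℝ) := by exact_mod_cast h2
    exact ⟨Real.log_le_log (by linarith) (by exact_mod_cast h3), Real.log_nonneg (by linarith)⟩
  have hcnt : ∀ D : ℕ, 64 ≤ D → (D : ℝ) ^ ((1 : ℝ) / 3) ≤ 128 * (S D).ncard := by
    intro D hD
    have h1 := Pool.Agent.U214.DO.cnt _ (hZ D hD)
    have h2 := hlow D hD
    rw [hcard]
    linarith
  have hmom : ∀ r : ℕ, ∃ C : ℝ, 0 ≤ C ∧ ∀ D : ℕ, 64 ≤ D →
      ∑ w ∈ Pool.Agent.U214.DO.DP (Nat.sqrt (D / 16)), (M (E w.1 w.2) : ℝ) ^ r ≤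
        C * ((D : ℝ) ^ ((1 : ℝ) / 3) * (1 + Real.log D) ^ kap r) := by
    intro r
    obtain ⟨C, hC, h⟩ := Pool.Agent.U214.DO.byDisc Pool.Agent.U214.GT.qq_QL hsym r
    refine ⟨C, hC, fun D hD => ?_⟩
    have h1 := h _ ((by norm_num : 1 ≤ 2).trans (hZ D hD))
    simp only [hM] at h1
    refine h1.trans (mul_le_mul_of_nonneg_left ?_ hC)
    obtain ⟨l1, l2⟩ := hlog D hD
    exact mul_le_mul (hupp D hD) (Real.rpow_le_rpow (by linarith) (by linarith)
      (Pool.Agent.U214.UN.e2_nn r)) (Real.rpow_nonneg (by linarith) _) (by positivity)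
  refine ⟨fun D => by rw [S_eq]; exact finite_toSet _, ?_, fun r => ?_⟩
  · obtain ⟨C, hC, h⟩ := hmom 0
    refine ⟨C + 128, fun D hD => ⟨?_, ?_⟩⟩
    · have h1 := hcnt D hD
      have h2 : 0 ≤ C * ((S D).ncard : ℝ) := by positivity
      linarith
    · have h1 := h D hD
      have h2 : kap 0 = 0 := by unfold kap; norm_num
      simp only [pow_zero, sum_const, nsmul_eq_mul, mul_one, h2, Real.rpow_zero] at h1
      rw [hcard]
      have h3 : (0 : ℝ) ≤ (D : ℝ) ^ ((1 : ℝ) / 3) := by positivity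
      linarith
  · obtain ⟨C, hC, h⟩ := hmom r
    refine ⟨C * 128, fun D hD => ?_⟩
    have h1 := h D hD
    have h2 := hcnt D hD
    have hDr : (64 : ℝ) ≤ D := by exact_mod_cast hD
    have hl : 0 ≤ Real.log D := Real.log_nonneg (by linarith)
    have hE : 0 ≤ (1 + Real.log D) ^ kap r := Real.rpow_nonneg (by linarith) _
    have hN : 0 < ((S D).ncard : ℝ) := by
      have h3 : (0 : ℝ) < (D : ℝ) ^ ((1 : ℝ) / 3) := Real.rpow_pos_of_pos (by linarith) _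
      linarith
    have h4 : ∑ w ∈ Pool.Agent.U214.DO.DP (Nat.sqrt (D / 16)), (M (E w.1 w.2) : ℝ) ^ r ≤
        C * 128 * (1 + Real.log D) ^ kap r * (S D).ncard := by
      refine h1.trans ?_
      have h5 := mul_le_mul_of_nonneg_right h2 hE
      have h6 := mul_le_mul_of_nonneg_left h5 hC
      linarith
    refine ⟨?_, fun R => ?_⟩
    · rw [div_le_iff₀ hN, S_eq, finsum_mem_coe_finset, ← S_eq]
      exact h4
    · rw [div_le_iff₀ hN]
      have h7 : (S D ∩ {w | 2 ^ R ≤ M (E w.1 w.2)}).ncard =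
          ((Pool.Agent.U214.DO.DP (Nat.sqrt (D / 16))).filter
            (fun w => 2 ^ R ≤ M (E w.1 w.2))).card := by
        rw [← Set.ncard_coe_finset]
        congr 1
        ext w
        rw [S_eq, coe_filter]
        rfl
      rw [h7]
      have h8 : ((((Pool.Agent.U214.DO.DP (Nat.sqrt (D / 16))).filter
            (fun w => 2 ^ R ≤ M (E w.1 w.2))).card : ℕ) : ℝ) * 2 ^ (r * R) ≤
          C * 128 * (1 + Real.log D) ^ kap r * (S D).ncard := by
        refine le_trans ?_ h4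
        rw [← nsmul_eq_mul, ← sum_const]
        refine (sum_le_sum fun t ht => ?_).trans (sum_le_sum_of_subset_of_nonneg
          (filter_subset _ _) fun t _ _ => pow_nonneg (Nat.cast_nonneg _) _)
        have h9 := (mem_filter.1 ht).2
        have h10 : (2 : ℝ) ^ R ≤ (M (E t.1 t.2) : ℝ) := by
          exact_mod_cast h9
        rw [mul_comm r R, pow_mul]
        exact pow_le_pow_left₀ (by positivity) h10 r
      rw [← le_div_iff₀ (by positivity)] at h8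
      refine h8.trans (le_of_eq ?_)
      ring

end Pool.Agent.Results.MP_6073f3_nt.DiscriminantOrdering
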