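import Pool.Agent.U376.RF.Fin
import Pool.Agent.U376.RF.Rat

/-!
# A positive proportion of rank zero in every residue class of good or nodal reduction and near every
# real shape

Part 1 (over `ℚ`, curves ordered by the naive height).  Let `N ≥ 1` and let `A₀, B₀` be integers such that
for all primes `q ∣ N`: `A₀` and `B₀` are odd if `q = 2`, and for `q ≠ 2` the number `4 A₀³ + 27 B₀²` is not
divisible by `q`, or `q² ∣ N` and it is not divisible by `q²`.  Let `a, b` be real numbers and `ε > 0`.  Then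
at least `c` times the number of ALL the curves `E : y² = x³ + A x + B` of naive height at most `X` have
`(A, B)` congruent to `(A₀, B₀)` modulo `N`, `|A - t² a| ≤ ε t²` and `|B - t³ b| ≤ ε t³` for some natural
number `t > 0`, and a finite group `E(ℚ)` of odd order; here `c > 0` and `X` is large.  So the lower density
of rank zero is positive in every such cell (in particular for all signs of `A`, `B` and of the
discriminant, and in every window of the `j`-invariant).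

Part 2.  The same over every number field `F`, with the points `a, b` of `F ⊗ ℝ`, given by their images
under the complex embeddings of `F`; at the primes over `2` which contain `N` the condition is that
`x³ + A₀ x + B₀` has no zero modulo `𝔭`.

The starting theorem `MP_7cad78_nt.RankZeroEveryNumberField` (project PF of helper783 and many others) is
the case of the whole family.

The proof.  The family of project PF is restricted to a part of the box (the sieve for the medium primes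
needs a small constant, and the large primes are counted in the whole box), the conditions at the small
primes are combined with the residue class (at the odd primes which divide `N` the discriminant may be
divisible by `𝔭` once), and the twisting primes are chosen `1` modulo `N`, so that the twists stay in the
class; a twist by a natural number does not change the shape.  The real points are reached by weak
approximation.

Files: `U376/RF/` (helper376), on top of project PF.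
-/

set_option autoImplicit false
set_option linter.all false

namespace Pool.Agent.Results.MP_6073f3_nt.RankZeroInEveryCell

open Filter NumberField
open scoped Classical

/-! ### Over `ℚ` -/

section defsQ

/-- The curve `y ^ 2 = x ^ 3 + A x + B` over `ℚ`. -/
def curveQ (p : ℤ × ℤ) : WeierstrassCurve ℚ := ⟨0, 0, 0, (p.1 : ℚ), (p.2 : ℚ)⟩

/-- The group of its rational points. -/
abbrev pointsQ (p : ℤ × ℤ) : Type := (curveQ p).toAffine.Point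

/-- The rank. -/
noncomputable def rankQ (p : ℤ × ℤ) : ℕ := Module.finrank ℤ (pointsQ p)

/-- The pairs `(A, B)` with `4 A ^ 3 + 27 B ^ 2 ≠ 0` and without prime `q` with `q ^ 4 ∣ A`, `q ^ 6 ∣ B`. -/
def FamilyQ : Set (ℤ × ℤ) :=
  {p | 4 * p.1 ^ 3 + 27 * p.2 ^ 2 ≠ 0 ∧
    ∀ q : ℕ, q.Prime → ¬ ((q : ℤ) ^ 4 ∣ p.1 ∧ (q : ℤ) ^ 6 ∣ p.2)}

/-- The naive height. -/
def naiveHeight (p : ℤ × ℤ) : ℤ := max (4 * |p.1| ^ 3) (27 * p.2 ^ 2)

/-- The curves of naive height at most `X`. -/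
def UpToQ (X : ℝ) : Set (ℤ × ℤ) := {p ∈ FamilyQ | (naiveHeight p : ℝ) ≤ X}

/-- The residue class of `p₀` modulo `N` is admissible: `A₀`, `B₀` odd if `2 ∣ N`; for the odd primes
`q ∣ N` the number `4 A₀ ^ 3 + 27 B₀ ^ 2` is not divisible by `q`, or not by `q ^ 2` and `q ^ 2 ∣ N`. -/
def AdmissibleQ (N : ℕ) (p₀ : ℤ × ℤ) : Prop :=
  ∀ q : ℕ, q.Prime → q ∣ N → (q = 2 → Odd p₀.1 ∧ Odd p₀.2) ∧
    (q ≠ 2 → ¬ (q : ℤ) ∣ 4 * p₀.1 ^ 3 + 27 * p₀.2 ^ 2 ∨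
      (q ^ 2 ∣ N ∧ ¬ (q : ℤ) ^ 2 ∣ 4 * p₀.1 ^ 3 + 27 * p₀.2 ^ 2))

/-- The pairs `(A, B)` congruent to `p₀` modulo `N` and near to `(t ^ 2 a, t ^ 3 b)` for some natural
number `t > 0`. -/
def CellQ (N : ℕ) (p₀ : ℤ × ℤ) (a b ε : ℝ) : Set (ℤ × ℤ) :=
  {p | (N : ℤ) ∣ p.1 - p₀.1 ∧ (N : ℤ) ∣ p.2 - p₀.2 ∧ ∃ t : ℕ, 0 < t ∧
    |(p.1 : ℝ) - (t : ℝ) ^ 2 * a| ≤ ε * (t : ℝ) ^ 2 ∧
    |(p.2 : ℝ) - (t : ℝ) ^ 3 * b| ≤ ε * (t : ℝ) ^ 3}

/-- The proportion of the rank `r` among the curves of naive height at most `X` which are in `T`. -/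
noncomputable def pQ (T : Set (ℤ × ℤ)) (r : ℕ) (X : ℝ) : ℝ :=
  ({p ∈ UpToQ X | p ∈ T ∧ rankQ p = r}.ncard : ℝ) / ({p ∈ UpToQ X | p ∈ T}.ncard : ℝ)

end defsQ

/-! ### Over a number field -/

section defs

variable (F : Type) [Field F] [NumberField F]

/-- The family over `F`: pairs of integers `(A, B)` with `4 A ^ 3 + 27 B ^ 2 ≠ 0` for which no
nonzero prime ideal `𝔭` satisfies both `𝔭 ^ 4 ∣ A` and `𝔭 ^ 6 ∣ B`. -/
def Family : Set (𝓞 F × 𝓞 F) :=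
  {p | 4 * p.1 ^ 3 + 27 * p.2 ^ 2 ≠ 0 ∧
    ∀ 𝔭 : Ideal (𝓞 F), 𝔭.IsPrime → 𝔭 ≠ ⊥ → ¬ (p.1 ∈ 𝔭 ^ 4 ∧ p.2 ∈ 𝔭 ^ 6)}

variable {F}

/-- The height `max_σ max (4 |σ A|³, 27 |σ B|²)`, over the embeddings `σ : F → ℂ`. -/
noncomputable def height (p : 𝓞 F × 𝓞 F) : ℝ :=
  ⨆ σ : F →+* ℂ, max (4 * ‖σ (p.1 : F)‖ ^ 3) (27 * ‖σ (p.2 : F)‖ ^ 2)

/-- The curve `y ^ 2 = x ^ 3 + A x + B` over `F`. -/
def curve (p : 𝓞 F × 𝓞 F) : WeierstrassCurve F := ⟨0, 0, 0, (p.1 : F), (p.2 : F)⟩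

/-- The group of the points over `F`. -/
abbrev points (p : 𝓞 F × 𝓞 F) : Type := (curve p).toAffine.Point

/-- The rank of the group of the points over `F`. -/
noncomputable def rank (p : 𝓞 F × 𝓞 F) : ℕ := Module.finrank ℤ (points p)

variable (F)

/-- The members of the family of height at most `X`. -/
def UpTo (X : ℝ) : Set (𝓞 F × 𝓞 F) := {p ∈ Family F | height p ≤ X}

variable {F}

/-- The residue class of `p₀` modulo `N` is admissible: at the primes over `2` which contain `N` the cubic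
polynomial has no zero, at the other primes `𝔭` which contain `N` the discriminant is not divisible by
`𝔭`, or it is divisible by `𝔭` only once and `𝔭 ^ 2` divides `N`. -/
def Admissible (N : ℕ) (p₀ : 𝓞 F × 𝓞 F) : Prop :=
  ∀ 𝔭 : Ideal (𝓞 F), 𝔭.IsPrime → 𝔭 ≠ ⊥ → (N : 𝓞 F) ∈ 𝔭 →
    ((2 : 𝓞 F) ∈ 𝔭 → ∀ x : 𝓞 F, x ^ 3 + p₀.1 * x + p₀.2 ∉ 𝔭) ∧
    ((2 : 𝓞 F) ∉ 𝔭 → 4 * p₀.1 ^ 3 + 27 * p₀.2 ^ 2 ∉ 𝔭 ∨
      ((N : 𝓞 F) ∈ 𝔭 ^ 2 ∧ 4 * p₀.1 ^ 3 + 27 * p₀.2 ^ 2 ∉ 𝔭 ^ 2))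

/-- A point of `F ⊗ ℝ`, given by its images under the complex embeddings of `F`. -/
def IsRealPoint (a : (F →+* ℂ) → ℂ) : Prop :=
  ∀ σ : F →+* ℂ, a (ComplexEmbedding.conjugate σ) = (starRingEnd ℂ) (a σ)

/-- The pairs `(A, B)` congruent to `p₀` modulo `N` and near to `(t ^ 2 a, t ^ 3 b)` for some natural
number `t > 0`. -/
def Cell (N : ℕ) (p₀ : 𝓞 F × 𝓞 F) (a b : (F →+* ℂ) → ℂ) (ε : ℝ) : Set (𝓞 F × 𝓞 F) :=
  {p | (N : 𝓞 F) ∣ p.1 - p₀.1 ∧ (N : 𝓞 F) ∣ p.2 - p₀.2 ∧ ∃ t : ℕ, 0 < t ∧ ∀ σ : F →+* ℂ,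
    ‖σ (p.1 : F) - (t : ℂ) ^ 2 * a σ‖ ≤ ε * (t : ℝ) ^ 2 ∧
    ‖σ (p.2 : F) - (t : ℂ) ^ 3 * b σ‖ ≤ ε * (t : ℝ) ^ 3}

/-- The proportion of the rank `r` among the members of height at most `X` which are in `T`. -/
noncomputable def δ (T : Set (𝓞 F × 𝓞 F)) (r : ℕ) (X : ℝ) : ℝ :=
  ({p ∈ UpTo F X | p ∈ T ∧ rank p = r}.ncard : ℝ) / ({p ∈ UpTo F X | p ∈ T}.ncard : ℝ)

end defs

theorem crv_iff {F : Type} [Field F] [NumberField F] (X : ℝ) (p : 𝓞 F × 𝓞 F) :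
    Pool.Agent.N783.PF.Crv X p ↔ p ∈ UpTo F X := by
  have hb : BddAbove (Set.range fun σ : F →+* ℂ =>
      max (4 * ‖σ (p.1 : F)‖ ^ 3) (27 * ‖σ (p.2 : F)‖ ^ 2)) := Set.Finite.bddAbove (Set.finite_range _)
  constructor
  · rintro ⟨h1, h2, h3⟩
    refine ⟨⟨h1, h2⟩, ciSup_le fun σ => max_le (h3 σ).1 (h3 σ).2⟩
  · rintro ⟨⟨h1, h2⟩, h3⟩
    refine ⟨h1, h2, fun σ => ?_⟩
    have h4 := (le_ciSup hb σ).trans h3
    exact ⟨(le_max_left _ _).trans h4, (le_max_right _ _).trans h4⟩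

theorem rank_zero {F : Type} [Field F] [NumberField F] (p : 𝓞 F × 𝓞 F) (h : Finite (points p)) :
    rank p = 0 := by
  unfold rank
  haveI := h
  refine Module.finrank_eq_zero_of_rank_eq_zero ?_
  rw [rank_eq_zero_iff]
  intro x
  refine ⟨(Nat.card (points p) : ℤ), by exact_mod_cast Nat.card_pos.ne', ?_⟩
  rw [natCast_zsmul]
  exact card_nsmul_eq_zero'

/-- from the counts to the proportions -/
theorem share_of {α : Type} {U T : Set α} (hU : U.Finite) {G R : α → Prop} (hGR : ∀ p, G p → R p)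
    {c : ℝ} (hc : 0 < c) (h0 : 0 < U.ncard)
    (h : c * (U.ncard : ℝ) ≤ ({p ∈ U | p ∈ T ∧ G p}.ncard : ℝ)) :
    c ≤ ({p ∈ U | p ∈ T ∧ R p}.ncard : ℝ) / ({p ∈ U | p ∈ T}.ncard : ℝ) := by
  have e1 : {p ∈ U | p ∈ T ∧ G p} ⊆ {p ∈ U | p ∈ T ∧ R p} :=
    fun p hp => ⟨hp.1, hp.2.1, hGR p hp.2.2⟩
  have e2 : {p ∈ U | p ∈ T ∧ G p} ⊆ {p ∈ U | p ∈ T} := fun p hp => ⟨hp.1, hp.2.1⟩
  have e3 : {p ∈ U | p ∈ T} ⊆ U := fun p hp => hp.1
  have n1 : ({p ∈ U | p ∈ T ∧ G p}.ncard : ℝ) ≤ ({p ∈ U | p ∈ T ∧ R p}.ncard : ℝ) := by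
    exact_mod_cast Set.ncard_le_ncard e1 (hU.subset fun p hp => hp.1)
  have n2 : ({p ∈ U | p ∈ T ∧ G p}.ncard : ℝ) ≤ ({p ∈ U | p ∈ T}.ncard : ℝ) := by
    exact_mod_cast Set.ncard_le_ncard e2 (hU.subset fun p hp => hp.1)
  have n3 : ({p ∈ U | p ∈ T}.ncard : ℝ) ≤ (U.ncard : ℝ) := by
    exact_mod_cast Set.ncard_le_ncard e3 hU
  have h0' : (0 : ℝ) < U.ncard := by exact_mod_cast h0
  have h1 : 0 < c * (U.ncard : ℝ) := by positivity
  rw [le_div_iff₀ (by linarith)]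
  calc c * ({p ∈ U | p ∈ T}.ncard : ℝ) ≤ c * (U.ncard : ℝ) := mul_le_mul_of_nonneg_left n3 hc.le
    _ ≤ _ := h.trans n1

/-- the proportions are at most `1` -/
theorem share_le {α : Type} {U T : Set α} (hU : U.Finite) (R : α → Prop) :
    ({p ∈ U | p ∈ T ∧ R p}.ncard : ℝ) / ({p ∈ U | p ∈ T}.ncard : ℝ) ≤ 1 := by
  refine div_le_one_of_le₀ ?_ (Nat.cast_nonneg _)
  have e0 : {p ∈ U | p ∈ T ∧ R p} ⊆ {p ∈ U | p ∈ T} := fun p hp => ⟨hp.1, hp.2.1⟩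
  exact_mod_cast Set.ncard_le_ncard e0 (hU.subset fun p hp => hp.1)

/-- the lower limit -/
theorem liminf_pos {s : ℝ → ℝ} {c : ℝ} (hc : 0 < c) (h1 : ∀ᶠ X : ℝ in atTop, c ≤ s X)
    (h2 : ∀ X, s X ≤ 1) : 0 < liminf s atTop := by
  refine lt_of_lt_of_le hc (Filter.le_liminf_of_le ?_ h1)
  refine Filter.IsBoundedUnder.isCoboundedUnder_ge ?_
  exact Filter.isBoundedUnder_of ⟨1, h2⟩

/-- The theorem over every number field. -/
theorem field (F : Type) [Field F] [NumberField F] (N : ℕ) (hN : 0 < N) (p₀ : 𝓞 F × 𝓞 F)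
    (hp₀ : Admissible N p₀) (a b : (F →+* ℂ) → ℂ) (ha : IsRealPoint a) (hb : IsRealPoint b)
    (ε : ℝ) (hε : 0 < ε) :
    (∀ X : ℝ, (UpTo F X).Finite) ∧
    ∃ c : ℝ, 0 < c ∧ ∀ᶠ X : ℝ in atTop,
      0 < (UpTo F X).ncard ∧
      c * ((UpTo F X).ncard : ℝ) ≤
        ({p ∈ UpTo F X | p ∈ Cell N p₀ a b ε ∧ (Finite (points p) ∧
          Odd (Nat.card (points p)))}.ncard : ℝ) := by
  have hset : ∀ X : ℝ, UpTo F X = {p : 𝓞 F × 𝓞 F | Pool.Agent.N783.PF.Crv X p} := by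
    intro X
    ext p
    exact (crv_iff X p).symm
  obtain ⟨c, hc, Y₀, h⟩ := Pool.Agent.U376.RF.finN F N hN p₀.1 p₀.2
    (fun 𝔭 h1 h2 h3 h4 => (hp₀ 𝔭 h1 h2 h3).1 h4) (fun 𝔭 h1 h2 h3 h4 => (hp₀ 𝔭 h1 h2 h3).2 h4)
    a b ha hb hε
  have hfin : ∀ X : ℝ, (UpTo F X).Finite := fun X => by
    rw [hset]
    exact (h X).1
  refine ⟨hfin, c, hc, ?_⟩
  filter_upwards [eventually_ge_atTop Y₀] with X hX
  obtain ⟨h1, h2⟩ := (h X).2 hX
  rw [← hset] at h1 h2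
  have h3 : {p : 𝓞 F × 𝓞 F | (Pool.Agent.N783.PF.Crv X p ∧
      Pool.Agent.U376.RF.InE N p₀.1 p₀.2 a b ε p) ∧ Pool.Agent.N783.PF.Good p} ⊆
      {p ∈ UpTo F X | p ∈ Cell N p₀ a b ε ∧ (Finite (points p) ∧
        Odd (Nat.card (points p)))} := by
    rintro p ⟨⟨hp, hin⟩, hg⟩
    exact ⟨(crv_iff X p).1 hp, hin, hg.fin, hg.odd⟩
  have h4 := Set.ncard_le_ncard h3 ((hfin X).subset fun p hp => hp.1)
  exact ⟨h1, h2.trans (by exact_mod_cast h4)⟩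

section transfer

open Pool.Agent.U376.RF (eZ eZ_coe emb_eZ prime_iff prime_over)

/-- pairs of integers as pairs of integers of the number field `ℚ` -/
noncomputable def Φ (p : ℤ × ℤ) : 𝓞 ℚ × 𝓞 ℚ := (eZ p.1, eZ p.2)

theorem Φ_inj : Function.Injective Φ := by
  intro p p' h
  have h' := Prod.mk.inj h
  exact Prod.ext (eZ.injective h'.1) (eZ.injective h'.2)

theorem Φ_surj : Function.Surjective Φ := by
  rintro ⟨x, y⟩
  obtain ⟨m, rfl⟩ := eZ.surjective x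
  obtain ⟨n, rfl⟩ := eZ.surjective y
  exact ⟨(m, n), rfl⟩

theorem eZ_nat (n : ℕ) : eZ (n : ℤ) = (n : 𝓞 ℚ) := by
  rw [map_natCast]

theorem disc_eq (p : ℤ × ℤ) : 4 * (Φ p).1 ^ 3 + 27 * (Φ p).2 ^ 2 =
    eZ (4 * p.1 ^ 3 + 27 * p.2 ^ 2) := by
  unfold Φ
  rw [map_add, map_mul, map_mul, map_pow, map_pow, map_ofNat, map_ofNat]

theorem family_iff (p : ℤ × ℤ) : Φ p ∈ Family ℚ ↔ p ∈ FamilyQ := by
  unfold Family FamilyQ
  rw [Set.mem_setOf_eq, Set.mem_setOf_eq, disc_eq]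
  refine and_congr ?_ ?_
  · rw [Ne, Ne, map_eq_zero_iff _ eZ.injective]
  · constructor
    · intro h q hq ⟨h1, h2⟩
      obtain ⟨𝔭, hp, h0, h3⟩ := prime_over q hq
      exact h 𝔭 hp h0 ⟨h3 4 _ h1, h3 6 _ h2⟩
    · intro h 𝔭 hp h0 ⟨h1, h2⟩
      obtain ⟨q, hq, h3⟩ := prime_iff 𝔭 hp h0
      exact h q hq ⟨(h3 4 _).1 h1, (h3 6 _).1 h2⟩

theorem height_eq (p : ℤ × ℤ) : height (Φ p) = (naiveHeight p : ℝ) := by
  unfold height naiveHeight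
  have h1 : ∀ σ : ℚ →+* ℂ, max (4 * ‖σ ((Φ p).1 : ℚ)‖ ^ 3) (27 * ‖σ ((Φ p).2 : ℚ)‖ ^ 2) =
      ((max (4 * |p.1| ^ 3) (27 * p.2 ^ 2) : ℤ) : ℝ) := by
    intro σ
    have e1 : σ ((Φ p).1 : ℚ) = (p.1 : ℂ) := emb_eZ σ p.1
    have e2 : σ ((Φ p).2 : ℚ) = (p.2 : ℂ) := emb_eZ σ p.2
    rw [e1, e2, Complex.norm_intCast, Complex.norm_intCast]
    push_cast
    rw [sq_abs]
  simp_rw [h1]
  haveI : Nonempty (ℚ →+* ℂ) := ⟨algebraMap ℚ ℂ⟩
  exact ciSup_const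

theorem upTo_iff (X : ℝ) (p : ℤ × ℤ) : Φ p ∈ UpTo ℚ X ↔ p ∈ UpToQ X := by
  unfold UpTo UpToQ
  rw [Set.mem_setOf_eq, Set.mem_setOf_eq, family_iff, height_eq]

theorem adm {N : ℕ} {p₀ : ℤ × ℤ} (h : AdmissibleQ N p₀) : Admissible N (Φ p₀) := by
  intro 𝔭 hp h0 hN
  obtain ⟨q, hq, h3⟩ := prime_iff 𝔭 hp h0
  have h31 : ∀ n : ℤ, eZ n ∈ 𝔭 ↔ (q : ℤ) ∣ n := by
    intro n
    have := h3 1 n
    rwa [pow_one, pow_one] at this
  have h2q : (2 : 𝓞 ℚ) ∈ 𝔭 ↔ q = 2 := by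
    have e1 : (2 : 𝓞 ℚ) = eZ 2 := by rw [map_ofNat]
    rw [e1, h31]
    constructor
    · intro h
      exact (Nat.prime_dvd_prime_iff_eq hq Nat.prime_two).1 (by exact_mod_cast h)
    · intro h
      rw [h]
      norm_num
  have hqN : q ∣ N := by
    rw [← eZ_nat, h31] at hN
    exact_mod_cast hN
  obtain ⟨h4, h5⟩ := h q hq hqN
  refine ⟨fun h2 x => ?_, fun h2 => ?_⟩
  · obtain ⟨n, rfl⟩ := eZ.surjective x
    have e1 : (eZ n) ^ 3 + (Φ p₀).1 * eZ n + (Φ p₀).2 = eZ (n ^ 3 + p₀.1 * n + p₀.2) := by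
      unfold Φ
      rw [map_add, map_add, map_mul, map_pow]
    have hq2 := h2q.1 h2
    obtain ⟨⟨u, hu⟩, ⟨w, hw⟩⟩ := h4 hq2
    rw [e1, h31, hq2]
    intro hd
    have e2 : (n ^ 3 + p₀.1 * n + p₀.2) % 2 = 0 := Int.emod_eq_zero_of_dvd (by exact_mod_cast hd)
    rw [hu, hw] at e2
    rcases Int.even_or_odd' n with ⟨k, hk | hk⟩
    · rw [hk] at e2
      have e3 : ((2 * k) ^ 3 + (2 * u + 1) * (2 * k) + (2 * w + 1)) =
          2 * (4 * k ^ 3 + (2 * u + 1) * k + w) + 1 := by ring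
      rw [e3] at e2
      omega
    · rw [hk] at e2
      have e3 : ((2 * k + 1) ^ 3 + (2 * u + 1) * (2 * k + 1) + (2 * w + 1)) =
          2 * (4 * k ^ 3 + 6 * k ^ 2 + 3 * k + 2 * u * k + u + k + w + 1) + 1 := by ring
      rw [e3] at e2
      omega
  · rw [disc_eq]
    have hq2 : q ≠ 2 := fun h => h2 (h2q.2 h)
    rcases h5 hq2 with h6 | ⟨h6, h7⟩
    · exact Or.inl fun h => h6 ((h31 _).1 h)
    · refine Or.inr ⟨?_, fun h => h7 ((h3 2 _).1 h)⟩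
      rw [← eZ_nat, h3]
      exact_mod_cast h6

theorem cell_iff (N : ℕ) (p₀ p : ℤ × ℤ) (a b ε : ℝ) :
    Φ p ∈ Cell N (Φ p₀) (fun _ => (a : ℂ)) (fun _ => (b : ℂ)) ε ↔ p ∈ CellQ N p₀ a b ε := by
  unfold Cell CellQ
  rw [Set.mem_setOf_eq, Set.mem_setOf_eq]
  have h1 : ∀ m n : ℤ, (N : 𝓞 ℚ) ∣ eZ m - eZ n ↔ (N : ℤ) ∣ m - n := by
    intro m n
    rw [← eZ_nat, ← map_sub]
    exact map_dvd_iff eZ
  refine and_congr (h1 _ _) (and_congr (h1 _ _) ?_)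
  refine exists_congr fun t => and_congr Iff.rfl ?_
  have h2 : ∀ (σ : ℚ →+* ℂ) (n : ℤ) (k : ℕ) (x : ℝ),
      ‖σ ((eZ n : 𝓞 ℚ) : ℚ) - (t : ℂ) ^ k * (x : ℂ)‖ = |(n : ℝ) - (t : ℝ) ^ k * x| := by
    intro σ n k x
    rw [emb_eZ]
    have e1 : (n : ℂ) - (t : ℂ) ^ k * (x : ℂ) = (((n : ℝ) - (t : ℝ) ^ k * x : ℝ) : ℂ) := by
      push_cast
      ring
    rw [e1, Complex.norm_real, Real.norm_eq_abs]
  constructor
  · intro h
    have h3 := h (algebraMap ℚ ℂ)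
    have e1 := h3.1
    have e2 := h3.2
    unfold Φ at e1 e2
    rw [h2] at e1 e2
    exact ⟨e1, e2⟩
  · intro h σ
    unfold Φ
    rw [h2, h2]
    exact h

theorem curve_eq (p : ℤ × ℤ) : curve (Φ p) = curveQ p := by
  unfold curve curveQ Φ
  rw [eZ_coe, eZ_coe]

theorem points_eq (p : ℤ × ℤ) : points (Φ p) = pointsQ p := by
  unfold points pointsQ
  rw [curve_eq]

end transfer

theorem rankQ_zero (p : ℤ × ℤ) (h : Finite (pointsQ p)) : rankQ p = 0 := by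
  unfold rankQ
  haveI := h
  refine Module.finrank_eq_zero_of_rank_eq_zero ?_
  rw [rank_eq_zero_iff]
  intro x
  refine ⟨(Nat.card (pointsQ p) : ℤ), by exact_mod_cast Nat.card_pos.ne', ?_⟩
  rw [natCast_zsmul]
  exact card_nsmul_eq_zero'

/-- The theorem over `ℚ`. -/
theorem rational (N : ℕ) (hN : 0 < N) (p₀ : ℤ × ℤ) (hp₀ : AdmissibleQ N p₀) (a b ε : ℝ)
    (hε : 0 < ε) :
    (∀ X : ℝ, (UpToQ X).Finite) ∧
    ∃ c : ℝ, 0 < c ∧ ∀ᶠ X : ℝ in atTop,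
      0 < (UpToQ X).ncard ∧
      c * ((UpToQ X).ncard : ℝ) ≤
        ({p ∈ UpToQ X | p ∈ CellQ N p₀ a b ε ∧ (Finite (pointsQ p) ∧
          Odd (Nat.card (pointsQ p)))}.ncard : ℝ) := by
  obtain ⟨h1, c, hc, h2⟩ := field ℚ N hN (Φ p₀) (adm hp₀) (fun _ => (a : ℂ)) (fun _ => (b : ℂ))
    (fun σ => (Complex.conj_ofReal a).symm) (fun σ => (Complex.conj_ofReal b).symm) ε hε
  have e1 : ∀ X : ℝ, UpToQ X = Φ ⁻¹' (UpTo ℚ X) := by
    intro X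
    ext p
    exact (upTo_iff X p).symm
  have e2 : ∀ X : ℝ, {p ∈ UpToQ X | p ∈ CellQ N p₀ a b ε ∧ (Finite (pointsQ p) ∧
        Odd (Nat.card (pointsQ p)))} =
      Φ ⁻¹' {q ∈ UpTo ℚ X | q ∈ Cell N (Φ p₀) (fun _ => (a : ℂ)) (fun _ => (b : ℂ)) ε ∧
        (Finite (points q) ∧ Odd (Nat.card (points q)))} := by
    intro X
    ext p
    rw [Set.mem_preimage, Set.mem_setOf_eq, Set.mem_setOf_eq, upTo_iff, cell_iff, points_eq]
  have e3 : ∀ s : Set (𝓞 ℚ × 𝓞 ℚ), (Φ ⁻¹' s).ncard = s.ncard := fun s =>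
    Set.ncard_preimage_of_injective_subset_range Φ_inj fun x _ => Φ_surj x
  refine ⟨fun X => ?_, c, hc, ?_⟩
  · rw [e1]
    exact (h1 X).preimage Φ_inj.injOn
  · filter_upwards [h2] with X hX
    rw [e2, e1, e3, e3]
    exact hX

/-- **Rank zero in every cell**: over `ℚ` for the curves ordered by naive height (part 1), and over every
number field (part 2). -/
theorem result :
    (∀ (N : ℕ) (p₀ : ℤ × ℤ) (a b ε : ℝ), 0 < N → AdmissibleQ N p₀ → 0 < ε →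
      (∀ X : ℝ, (UpToQ X).Finite) ∧
      (∃ c : ℝ, 0 < c ∧ ∀ᶠ X : ℝ in atTop,
        0 < (UpToQ X).ncard ∧
        c * ((UpToQ X).ncard : ℝ) ≤
          ({p ∈ UpToQ X | p ∈ CellQ N p₀ a b ε ∧ (Finite (pointsQ p) ∧
            Odd (Nat.card (pointsQ p)))}.ncard : ℝ)) ∧
      0 < liminf (pQ (CellQ N p₀ a b ε) 0) atTop) ∧
    (∀ (F : Type) [Field F] [NumberField F] (N : ℕ) (p₀ : 𝓞 F × 𝓞 F) (a b : (F →+* ℂ) → ℂ)
      (ε : ℝ), 0 < N → Admissible N p₀ → IsRealPoint a → IsRealPoint b → 0 < ε →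
      (∀ X : ℝ, (UpTo F X).Finite) ∧
      (∃ c : ℝ, 0 < c ∧ ∀ᶠ X : ℝ in atTop,
        0 < (UpTo F X).ncard ∧
        c * ((UpTo F X).ncard : ℝ) ≤
          ({p ∈ UpTo F X | p ∈ Cell N p₀ a b ε ∧ (Finite (points p) ∧
            Odd (Nat.card (points p)))}.ncard : ℝ)) ∧
      0 < liminf (δ (Cell N p₀ a b ε) 0) atTop) := by
  constructor
  · intro N p₀ a b ε hN hp₀ hε
    obtain ⟨h1, c, hc, h2⟩ := rational N hN p₀ hp₀ a b ε hε
    refine ⟨h1, ⟨c, hc, h2⟩, liminf_pos hc ?_ fun X => share_le (h1 X) _⟩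
    filter_upwards [h2] with X hX
    exact share_of (h1 X) (fun p hp => rankQ_zero p hp.1) hc hX.1 hX.2
  · intro F _ _ N p₀ a b ε hN hp₀ ha hb hε
    obtain ⟨h1, c, hc, h2⟩ := field F N hN p₀ hp₀ a b ha hb ε hε
    refine ⟨h1, ⟨c, hc, h2⟩, liminf_pos hc ?_ fun X => share_le (h1 X) _⟩
    filter_upwards [h2] with X hX
    exact share_of (h1 X) (fun p hp => rank_zero p hp.1) hc hX.1 hX.2

end Pool.Agent.Results.MP_6073f3_nt.RankZeroInEveryCell
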