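import Mathlib
import Pool.Agent.U115.GE.DensK
import Pool.Agent.U115.GE.Ex
import Pool.Agent.U80.NP.Grp
import Pool.Agent.U80.NP.Dual
import Pool.Agent.U79.TF.Ord

/-!
# The ranks in families of quadratic twists, ordered by height, discriminant or conductor

`E : y² = x³ + a x² + b x` with integers `a`, `b` such that neither `b` nor `c = a² - 4 b` is a square, and
`E_D : y² = x³ + a D x² + b D² x` its quadratic twist by `D`. A prime is split if it is `1` modulo `8` and a
nonzero square modulo all the odd primes dividing `b c`, and inert if it is odd and neither `b` nor `c` is a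
square modulo it. The family: `D` runs over the products of different split and inert primes, any number
of each, with `D = 1` modulo `8` and `D` a square modulo all the odd primes dividing `b c`. It is assumed that
`3` divides `b c`, so that `3` does not divide `D`; this is no restriction for the curve `E`, which is
also given by `(9 a, 81 b)`.

`s` is the Selmer rank of `E` for the descent by isogenies of degree two
(`2 ^ (s + 2)` is the product of the orders of the Selmer groups of `E` and of the isogenous curve).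

The curves of the family are ordered by ANY of the three invariants of the problem: the naive height, the
absolute value of the minimal discriminant, the conductor. For each of them:

* there are finitely many curves `E_D` with invariant at most `X`, their number tends to infinity, and
  different `D` give curves which are not isomorphic over `ℚ`;
* for every `k` and `ε > 0` the proportion of the curves of rank at most `s + 2 k` is at least
  `c₀ + c₁ + ... + c_k - ε` for all large `X`, where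
  `c_k = ∏_{i ≥ 0} (1 - 2^{-(2i+1)}) / ∏_{1 ≤ i ≤ k} (2 ^ i - 1)`, the sum of all the `c_k` is `1`,
  `c₀ = c₁ > 0.4194`, `c₀ + c₁ + c₂ > 0.978`, `c₀ + ... + c₃ > 0.998`;
* if `s = 0`: the proportion of the curves with finite `E_D(ℚ)` and `Ш(E_D/ℚ)[2^∞] = 0` tends exactly to
  `c₀`. So `p₀(X) ≥ 0.4194` for large `X`, the proportion of the ranks `≤ 2` is at least `0.8388`, and
  that of the ranks `≤ 4` at least `0.978`. The curve `X_0(14)` (`(a, b) = 9 · 13, 81 · 128`) is an
  example.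

For the conductor the statement is proved for every function of the elliptic curves over `ℚ_p` which has the
following properties of the exponent of the conductor: it depends only on the isomorphism class, it is `0`
for good reduction, and `2` for additive reduction if `p ≥ 5`.

The law of the Selmer ranks (all `D ≤ X`) is the project GE/GDK of helper115: helper115 (plan, descent,
statements), helper295, helper439, helper2, helper643, helper674, helper234, helper158, helper998,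
helper798, helper756, helper79, helper958, helper388 (the law of the coranks of the matrices for a
general modulus), helper796 (the bound of the rank by the Selmer groups), helper739 (good primes). New
here (helper79): the orderings.
-/

set_option autoImplicit false

open scoped Classical

namespace Pool.Agent.Results.MP_6073f3_nt.TwistFamiliesByHeight

open Filter Topology WeierstrassCurve
open Pool.Agent.TH841.NF.D (Sha rk)

/-! ### The three invariants -/

/-- the curve `y² = x³ + A x + B` over `ℚ` -/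
def short (A B : ℤ) : WeierstrassCurve ℚ := ⟨0, 0, 0, (A : ℚ), (B : ℚ)⟩

/-- there is no prime `p` with `p ^ 4 ∣ A` and `p ^ 6 ∣ B` -/
def Minimal (A B : ℤ) : Prop := ∀ p : ℕ, p.Prime → ¬ ((p : ℤ) ^ 4 ∣ A ∧ (p : ℤ) ^ 6 ∣ B)

/-- the naive height of an elliptic curve over `ℚ`: `max (4 |A|³) (27 B²)` for the model
`y² = x³ + A x + B` with integers `A`, `B` and no prime `p` with `p ^ 4 ∣ A` and `p ^ 6 ∣ B` -/
noncomputable def naiveHeight (W : WeierstrassCurve ℚ) : ℕ :=
  sInf {h : ℕ | ∃ (A B : ℤ) (C : VariableChange ℚ), Minimal A B ∧ C • W = short A B ∧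
    h = max (4 * A.natAbs ^ 3) (27 * B.natAbs ^ 2)}

/-- the valuation at `p` of the minimal discriminant: the least valuation of the discriminant of a
Weierstrass equation of the curve with coefficients in `ℤ_p` -/
noncomputable def vDisc (p : ℕ) [Fact p.Prime] (W : WeierstrassCurve ℚ) : ℕ :=
  sInf {n : ℕ | ∃ (V : WeierstrassCurve ℤ_[p]) (C : VariableChange ℚ_[p]),
    C • W.map (algebraMap ℚ ℚ_[p]) = V.map (algebraMap ℤ_[p] ℚ_[p]) ∧ n = V.Δ.valuation}

/-- the absolute value of the minimal discriminant -/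
noncomputable def minDisc (W : WeierstrassCurve ℚ) : ℕ :=
  ∏ᶠ p : Nat.Primes, haveI := Fact.mk p.2; (p : ℕ) ^ vDisc (p : ℕ) W

/-- a function with the following properties of the exponent of the conductor: it depends only
on the isomorphism class over `ℚ_p`, it is `0` in the case of good reduction, and `2`
if `p ≥ 5` and the reduction is additive -/
structure IsConductorExponent (f : ∀ (p : ℕ) [Fact p.Prime], WeierstrassCurve ℚ_[p] → ℕ) : Prop where
  iso : ∀ (p : ℕ) [Fact p.Prime] (W : WeierstrassCurve ℚ_[p]) (C : VariableChange ℚ_[p]),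
    f p (C • W) = f p W
  good : ∀ (p : ℕ) [Fact p.Prime] (V : WeierstrassCurve ℤ_[p]), IsUnit V.Δ →
    f p (V.map (algebraMap ℤ_[p] ℚ_[p])) = 0
  additive : ∀ (p : ℕ) [Fact p.Prime], 5 ≤ p → ∀ A B : ℤ_[p], 4 * A ^ 3 + 27 * B ^ 2 ≠ 0 →
    (p : ℤ_[p]) ∣ A → (p : ℤ_[p]) ∣ B → ¬ ((p : ℤ_[p]) ^ 4 ∣ A ∧ (p : ℤ_[p]) ^ 6 ∣ B) →
    f p ⟨0, 0, 0, (A : ℚ_[p]), (B : ℚ_[p])⟩ = 2

/-- the conductor, given the function of the exponents -/
noncomputable def conductor (f : ∀ (p : ℕ) [Fact p.Prime], WeierstrassCurve ℚ_[p] → ℕ)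
    (W : WeierstrassCurve ℚ) : ℕ :=
  ∏ᶠ p : Nat.Primes, haveI := Fact.mk p.2; (p : ℕ) ^ f (p : ℕ) (W.map (algebraMap ℚ ℚ_[(p : ℕ)]))

/-- `I` is one of the three invariants -/
def Ordering (I : WeierstrassCurve ℚ → ℕ) : Prop :=
  I = naiveHeight ∨ I = minDisc ∨ ∃ f : ∀ (p : ℕ) [Fact p.Prime], WeierstrassCurve ℚ_[p] → ℕ,
    IsConductorExponent f ∧ I = conductor f

/-! ### The families -/

/-- `y² = x³ + a D x² + b D² x` -/
def E (a b : ℤ) (D : ℕ) : WeierstrassCurve ℚ := ⟨0, (a : ℚ) * (D : ℚ), 0, (b : ℚ) * (D : ℚ) ^ 2, 0⟩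

/-- the quartic of `d` has a nontrivial point over `K` -/
def Quartic (K : Type) [Field K] (a b d : ℤ) : Prop :=
  ∃ N M e : K, (M ≠ 0 ∨ e ≠ 0) ∧
    N ^ 2 = (d : K) * M ^ 4 + (a : K) * M ^ 2 * e ^ 2 + (b : K) / (d : K) * e ^ 4

/-- the Selmer group of the isogeny of degree two of `y² = x³ + a x² + b x` -/
def Sel (a b : ℤ) : Set ℤ :=
  {d | Squarefree d ∧ Quartic ℝ a b d ∧ ∀ (p : ℕ) [Fact p.Prime], Quartic ℚ_[p] a b d}

/-- the Selmer rank of `y² = x³ + a x² + b x`: the product of the orders of the Selmer groups of the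
two isogenies of degree two is `2 ^ (s + 2)` -/
noncomputable def s (a b : ℤ) : ℕ :=
  Nat.log 2 ((Sel a b).ncard * (Sel (-2 * a) (a ^ 2 - 4 * b)).ncard) - 2

/-- `n` is `1` modulo `8` and a nonzero square modulo the odd primes dividing `b (a² - 4 b)` -/
def Res (a b : ℤ) (n : ℕ) : Prop := n % 8 = 1 ∧ ∀ l : ℕ, l.Prime → l ≠ 2 →
  (l : ℤ) ∣ b * (a ^ 2 - 4 * b) → ¬ l ∣ n ∧ IsSquare (n : ZMod l)

/-- the inert primes -/
def Inert (a b : ℤ) (q : ℕ) : Prop := q ≠ 2 ∧ ¬ IsSquare (b : ZMod q) ∧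
  ¬ IsSquare ((a ^ 2 - 4 * b : ℤ) : ZMod q)

/-- the class of the numbers `D` -/
def Class (a b : ℤ) (D : ℕ) : Prop := Squarefree D ∧ Res a b D ∧
  ∀ p ∈ D.primeFactors, Res a b p ∨ Inert a b p

/-- the curves of the family with invariant at most `X` and with the property `P` -/
def Fam (I : WeierstrassCurve ℚ → ℕ) (a b : ℤ) (P : WeierstrassCurve ℚ → Prop) (X : ℕ) : Set ℕ :=
  {D : ℕ | Class a b D ∧ I (E a b D) ≤ X ∧ P (E a b D)}

/-- the proportion of the curves with the property `P` among the curves of the family with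
invariant at most `X` -/
noncomputable def proportion (I : WeierstrassCurve ℚ → ℕ) (a b : ℤ) (P : WeierstrassCurve ℚ → Prop)
    (X : ℕ) : ℝ :=
  ((Fam I a b P X).ncard : ℝ) / ((Fam I a b (fun _ => True) X).ncard : ℝ)

/-- `W(ℚ)` is finite and `Ш(W/ℚ)[2^∞] = 0` -/
def TrivialTwo (W : WeierstrassCurve ℚ) : Prop :=
  Finite W.toAffine.Point ∧ ∀ (n : ℕ) (x : Sha W), 2 ^ n • x = 0 → x = 0

/-- the constants -/
noncomputable def c (k : ℕ) : ℝ :=
  (∏' i : ℕ, (1 - (1 / 2 : ℝ) ^ (2 * i + 1))) / ∏ i ∈ Finset.range k, ((2 : ℝ) ^ (i + 1) - 1)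

section proof

open Pool.Agent.U115.GE (cork)

variable {a b : ℤ} {I : WeierstrassCurve ℚ → ℕ}

theorem ordering_iff (h : Ordering I) : Pool.Agent.U79.TF.Ordering I := by
  rcases h with h | h | ⟨f, hf, h⟩
  · exact Or.inl h
  · exact Or.inr (Or.inl h)
  · exact Or.inr (Or.inr ⟨f, ⟨hf.iso, hf.good, hf.additive⟩, h⟩)

theorem class_iff (D : ℕ) : Class a b D ↔ Pool.Agent.U115.GE.Class a b D := by
  refine and_congr_right fun _ => and_congr_right fun _ => forall₂_congr fun p hp => ?_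
  have hpp := Nat.prime_of_mem_primeFactors hp
  exact or_congr ⟨fun h => ⟨hpp, h⟩, fun h => h.2⟩ ⟨fun h => ⟨hpp, h⟩, fun h => h.2⟩

theorem class_locSq {D : ℕ} (h : Class a b D) : Pool.Agent.U79.TF.LocSq a b D := by
  intro p hp hb
  have h1 := (Pool.Agent.U115.GE.sq_bad (a := a) (b := b) (n := D) (l := p) h.2.1 hb).1
  rwa [Int.cast_natCast] at h1

theorem class_good (h3 : (3 : ℤ) ∣ b * (a ^ 2 - 4 * b)) {D : ℕ} (h : Class a b D) :
    Pool.Agent.U79.TF.Good a b D := by
  obtain ⟨h1, h2, -⟩ := h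
  have hbad : ∀ p : ℕ, p.Prime → p ∣ D → ¬ (p : ℤ) ∣ b * (a ^ 2 - 4 * b) := by
    intro p hp hpD hb
    have h4 : p ≠ 2 := by
      rintro rfl
      have := h2.1
      omega
    exact (h2.2 p hp h4 hb).1 hpD
  refine ⟨h1, fun p hp hpD => ⟨?_, ?_, ?_⟩⟩
  · have h4 : p ≠ 2 := by
      rintro rfl
      have := h2.1
      omega
    have h5 : p ≠ 3 := by
      rintro rfl
      exact hbad 3 hp hpD (by exact_mod_cast h3)
    have h6 : p ≠ 4 := by
      rintro rfl
      norm_num at hp
    have := hp.two_le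
    omega
  · intro h
    exact hbad p hp hpD (h.mul_right _)
  · intro h
    exact hbad p hp hpD (h.mul_left _)

/-- the largest `Y` with `Y ^ m * n ≤ X` -/
noncomputable def root (m n X : ℕ) : ℕ := Nat.findGreatest (fun Y => Y ^ m * n ≤ X) X

theorem le_root {m n : ℕ} (hm : m ≠ 0) (hn : 0 < n) (X D : ℕ) : D ≤ root m n X ↔ D ^ m * n ≤ X := by
  unfold root
  constructor
  · intro h
    have h1 : (Nat.findGreatest (fun Y => Y ^ m * n ≤ X) X) ^ m * n ≤ X := by
      have h0 : 0 ^ m * n ≤ X := by rw [zero_pow hm, zero_mul]; exact Nat.zero_le _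
      exact Nat.findGreatest_spec (P := fun Y => Y ^ m * n ≤ X) (Nat.zero_le X) h0
    exact (Nat.mul_le_mul_right n (Nat.pow_le_pow_left h m)).trans h1
  · intro h
    refine Nat.le_findGreatest ?_ h
    have h1 : D ≤ D ^ m := Nat.le_self_pow hm D
    exact (h1.trans (Nat.le_mul_of_pos_right _ hn)).trans h

theorem root_tendsto {m n : ℕ} (hm : m ≠ 0) (hn : 0 < n) : Tendsto (root m n) atTop atTop := by
  refine tendsto_atTop.2 fun b => ?_
  filter_upwards [eventually_ge_atTop (b ^ m * n)] with X hX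
  exact (le_root hm hn X b).2 hX

theorem fam_eq {m n : ℕ} (hm : m ≠ 0) (hn : 0 < n)
    (h : ∀ D : ℕ, Class a b D → I (E a b D) = D ^ m * n) (P : WeierstrassCurve ℚ → Prop) (X : ℕ) :
    Fam I a b P X = (((Finset.Icc 1 (root m n X)).filter fun D =>
      Pool.Agent.U115.GE.Class a b D ∧ P (E a b D) : Finset ℕ) : Set ℕ) := by
  ext D
  rw [Finset.coe_filter]
  constructor
  · rintro ⟨h1, h2, h3⟩
    rw [h D h1] at h2
    exact ⟨Finset.mem_Icc.2 ⟨Nat.pos_of_ne_zero h1.1.ne_zero, (le_root hm hn X D).2 h2⟩,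
      (class_iff D).1 h1, h3⟩
  · rintro ⟨h1, h2, h3⟩
    have h2 := (class_iff D).2 h2
    refine ⟨h2, ?_, h3⟩
    rw [h D h2]
    exact (le_root hm hn X D).1 (Finset.mem_Icc.1 h1).2

theorem fam_card {m n : ℕ} (hm : m ≠ 0) (hn : 0 < n)
    (h : ∀ D : ℕ, Class a b D → I (E a b D) = D ^ m * n) (P : WeierstrassCurve ℚ → Prop) (X : ℕ) :
    (Fam I a b P X).ncard = ((Finset.Icc 1 (root m n X)).filter fun D =>
      Pool.Agent.U115.GE.Class a b D ∧ P (E a b D)).card := by
  rw [fam_eq hm hn h, Set.ncard_coe_finset]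

theorem fam_card_true {m n : ℕ} (hm : m ≠ 0) (hn : 0 < n)
    (h : ∀ D : ℕ, Class a b D → I (E a b D) = D ^ m * n) (X : ℕ) :
    (Fam I a b (fun _ => True) X).ncard =
      ((Finset.Icc 1 (root m n X)).filter fun D => Pool.Agent.U115.GE.Class a b D).card := by
  rw [fam_card hm hn h]
  refine congrArg Finset.card (Finset.ext fun D => ?_)
  simp only [Finset.mem_filter, and_true]

theorem fam_ge {m n : ℕ} (hm : m ≠ 0) (hn : 0 < n)
    (h : ∀ D : ℕ, Class a b D → I (E a b D) = D ^ m * n) (P : WeierstrassCurve ℚ → Prop)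
    (Q : ℕ → Prop) (hQ : ∀ D : ℕ, Class a b D → Q D → P (E a b D)) (X : ℕ) :
    ((Finset.Icc 1 (root m n X)).filter fun D =>
      Pool.Agent.U115.GE.Class a b D ∧ Q D).card ≤ (Fam I a b P X).ncard := by
  rw [fam_card hm hn h]
  refine Finset.card_le_card fun D hD => ?_
  have hD := Finset.mem_filter.1 hD
  exact Finset.mem_filter.2 ⟨hD.1, hD.2.1, hQ D ((class_iff D).2 hD.2.1) hD.2.2⟩

/-- the class is infinite -/
theorem class_many (hb : b ≠ 0) (hc : a ^ 2 - 4 * b ≠ 0) : Tendsto (fun X : ℕ =>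
    ((Finset.Icc 1 X).filter fun D => Pool.Agent.U115.GE.Class a b D).card) atTop atTop := by
  set N : ℕ := 8 * (b * (a ^ 2 - 4 * b)).natAbs with hN
  have hN0 : N ≠ 0 := by
    have := Int.natAbs_ne_zero.2 (mul_ne_zero hb hc)
    omega
  have : NeZero N := ⟨hN0⟩
  have hinf : {p : ℕ | p.Prime ∧ (p : ZMod N) = 1}.Infinite :=
    Nat.infinite_setOfPred_prime_and_eq_mod (q := N) (a := 1) isUnit_one
  have hcl : ∀ p : ℕ, p.Prime → (p : ZMod N) = 1 → Pool.Agent.U115.GE.Class a b p := by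
    intro p hp h1
    have h2 : p ≡ 1 [MOD N] := by
      rw [← ZMod.natCast_eq_natCast_iff]
      rw [h1, Nat.cast_one]
    have hres : Pool.Agent.U115.GE.Res a b p := by
      refine ⟨?_, fun l hl _ hlb => ?_⟩
      · have h3 : p ≡ 1 [MOD 8] := h2.of_dvd (by rw [hN]; exact dvd_mul_right _ _)
        exact h3
      · have h3 : p ≡ 1 [MOD l] := h2.of_dvd (by
          rw [hN]
          exact (Int.natCast_dvd.1 hlb).mul_left _)
        have := Fact.mk hl
        have h4 : (p : ZMod l) = 1 := by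
          have := (ZMod.natCast_eq_natCast_iff p 1 l).2 h3
          rwa [Nat.cast_one] at this
        refine ⟨fun h5 => ?_, 1, by rw [h4, one_mul]⟩
        rw [← ZMod.natCast_eq_zero_iff, h4] at h5
        exact one_ne_zero h5
    refine ⟨hp.prime.squarefree, hres, fun q hq => Or.inl ?_⟩
    rw [hp.primeFactors, Finset.mem_singleton] at hq
    subst hq
    exact ⟨hp, hres⟩
  refine tendsto_atTop.2 fun k => ?_
  obtain ⟨T, hT, hTk⟩ := hinf.exists_subset_card_eq k
  filter_upwards [eventually_ge_atTop (T.sup id)] with X hX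
  rw [← hTk]
  refine Finset.card_le_card fun p hp => ?_
  have h1 := hT hp
  rw [Finset.mem_filter, Finset.mem_Icc]
  exact ⟨⟨h1.1.one_le, (Finset.le_sup (f := id) hp).trans hX⟩, hcl p h1.1 h1.2⟩

/-- the law of the corank -/
theorem law (nb : ¬ IsSquare b) (nc : ¬ IsSquare (a ^ 2 - 4 * b)) (k : ℕ) :
    Tendsto (fun X : ℕ =>
      (((Finset.Icc 1 X).filter fun D =>
        Pool.Agent.U115.GE.Class a b D ∧ cork a b D ≤ k).card : ℝ) /
      (((Finset.Icc 1 X).filter fun D => Pool.Agent.U115.GE.Class a b D).card : ℝ)) atTop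
      (nhds (∑ j ∈ Finset.range (k + 1), c j)) := by
  have h := tendsto_finsetSum (Finset.range (k + 1))
    fun j _ => Pool.Agent.U115.GE.densK (a := a) (b := b) nb nc j
  refine h.congr fun X => ?_
  rw [← Finset.sum_div]
  congr 1
  rw [← Nat.cast_sum]
  congr 1
  rw [← Finset.card_biUnion]
  · congr 1
    ext D
    simp only [Finset.mem_biUnion, Finset.mem_range, Finset.mem_filter]
    constructor
    · rintro ⟨j, hj, h1, h2, h3⟩
      exact ⟨h1, h2, by omega⟩
    · rintro ⟨h1, h2, h3⟩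
      exact ⟨_, by omega, h1, h2, rfl⟩
  · intro i _ j _ hij
    show Disjoint _ _
    rw [Finset.disjoint_left]
    intro D h1 h2
    rw [Finset.mem_filter] at h1 h2
    exact hij (h1.2.2.symm.trans h2.2.2)

theorem sel_U80 (a b : ℤ) : Pool.Agent.U80.NP.Sel a b = Sel a b := by
  ext d
  refine and_congr_right fun hd => ?_
  have key : ∀ (K : Type) [Field K] [CharZero K],
      Pool.Agent.Y695.LocA K (a : K) (b : K) (d : K) ↔ Quartic K a b d := by
    intro K _ _
    have hd0 : (d : K) ≠ 0 := Int.cast_ne_zero.2 hd.ne_zero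
    exact Pool.Agent.U80.NP.locA_iff hd0 (mul_div_cancel₀ _ hd0).symm
  exact and_congr (key ℝ) (forall₂_congr fun p hp => key ℚ_[p])

theorem sel_pow (a : ℤ) {b : ℤ} (hb : b ≠ 0) : ∃ f : ℕ, (Sel a b).ncard = 2 ^ f := by
  have h := Pool.Agent.U80.NP.ncard_pow (a := a) hb
  rw [sel_U80] at h
  exact ⟨_, h⟩

theorem sel_ge (hb : b ≠ 0) (hc : a ^ 2 - 4 * b ≠ 0) :
    4 ≤ (Sel a b).ncard * (Sel (-2 * a) (a ^ 2 - 4 * b)).ncard := by
  obtain ⟨h1, h2⟩ := Pool.Agent.U796.GE.t_BND a b hb hc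
  have h3 : 0 < Nat.card {x : Sha (Pool.Agent.Y682.wc (a : ℚ) (b : ℚ)) // 2 • x = 0} :=
    Nat.card_pos_iff.2 ⟨⟨⟨0, smul_zero 2⟩⟩, h1⟩
  have h4 : 0 < 2 ^ rk (Pool.Agent.Y682.wc (a : ℚ) (b : ℚ)) := by positivity
  refine le_trans ?_ h2
  have h5 : 4 * 1 * 1 ≤ 4 * 2 ^ rk (Pool.Agent.Y682.wc (a : ℚ) (b : ℚ)) *
      Nat.card {x : Sha (Pool.Agent.Y682.wc (a : ℚ) (b : ℚ)) // 2 • x = 0} :=
    Nat.mul_le_mul (Nat.mul_le_mul_left 4 h4) h3
  simpa using h5

theorem sel_s (hb : b ≠ 0) (hc : a ^ 2 - 4 * b ≠ 0) :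
    (Sel a b).ncard * (Sel (-2 * a) (a ^ 2 - 4 * b)).ncard = 2 ^ (s a b + 2) := by
  have h4 := sel_ge hb hc
  obtain ⟨f, hf⟩ := sel_pow a hb
  obtain ⟨f', hf'⟩ := sel_pow (-2 * a) hc
  unfold s
  rw [hf, hf', ← pow_add] at h4 ⊢
  rw [Nat.log_pow (by norm_num)]
  have h2 : 2 ≤ f + f' := by
    by_contra h
    have h5 : 2 ^ (f + f') < 2 ^ 2 := Nat.pow_lt_pow_right (by norm_num) (by omega)
    omega
  rw [Nat.sub_add_cancel h2]

/-- the bound of the rank -/
theorem rank_le (hb : b ≠ 0) (hc : a ^ 2 - 4 * b ≠ 0) {D : ℕ} (h : Class a b D) :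
    rk (E a b D) ≤ s a b + 2 * cork a b D := by
  have h' := (class_iff D).1 h
  have hH := Pool.Agent.U115.GE.class_hg hb hc h'
  have hk := Pool.Agent.U115.GE.class_kap hb hc h'
  have hD := Pool.Agent.U115.GE.prod_eq (a := a) (b := b) h.1
  obtain ⟨h1, h2⟩ := hH.bound Pool.Agent.U739.GE.t_GOOD Pool.Agent.U796.GE.t_BND hD
  have eS : Pool.Agent.U115.GE.sel a b * Pool.Agent.U115.GE.sel (-2 * a) (a ^ 2 - 4 * b) =
      (Sel a b).ncard * (Sel (-2 * a) (a ^ 2 - 4 * b)).ncard := rfl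
  rw [hk, eS] at h2
  have eE : Pool.Agent.U115.GE.twE a b D = E a b D := rfl
  rw [eE] at h1 h2
  set S := (Sel a b).ncard * (Sel (-2 * a) (a ^ 2 - 4 * b)).ncard with hS
  have hS4 : 4 ≤ S := sel_ge hb hc
  have h3 : 0 < Nat.card {x : Sha (E a b D) // 2 • x = 0} :=
    Nat.card_pos_iff.2 ⟨⟨⟨0, smul_zero 2⟩⟩, h1⟩
  have h4 : 4 * 2 ^ rk (E a b D) ≤ (2 ^ cork a b D) ^ 2 * S :=
    (Nat.le_mul_of_pos_right _ h3).trans h2
  have h5 : S < 2 ^ (Nat.log 2 S + 1) := Nat.lt_pow_succ_log_self (by norm_num) S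
  have h6 : 2 ^ (rk (E a b D) + 2) < 2 ^ (cork a b D * 2 + (Nat.log 2 S + 1)) := by
    rw [pow_add, pow_add 2 (cork a b D * 2), pow_mul]
    calc 2 ^ rk (E a b D) * 2 ^ 2 = 4 * 2 ^ rk (E a b D) := by ring
      _ ≤ (2 ^ cork a b D) ^ 2 * S := h4
      _ < (2 ^ cork a b D) ^ 2 * 2 ^ (Nat.log 2 S + 1) :=
        Nat.mul_lt_mul_of_pos_left h5 (by positivity)
  have h7 := (Nat.pow_lt_pow_iff_right (by norm_num : 1 < 2)).1 h6
  have h8 : 2 ≤ Nat.log 2 S := by
    have := Nat.log_mono_right (b := 2) hS4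
    have h9 : Nat.log 2 4 = 2 := by
      rw [show (4 : ℕ) = 2 ^ 2 by norm_num, Nat.log_pow (by norm_num)]
    omega
  have h9 : s a b = Nat.log 2 S - 2 := rfl
  omega

/-- the criterion -/
theorem trivial_iff (nb : ¬ IsSquare b) (nc : ¬ IsSquare (a ^ 2 - 4 * b)) (hb : b ≠ 0)
    (hc : a ^ 2 - 4 * b ≠ 0)
    (h4 : (Sel a b).ncard * (Sel (-2 * a) (a ^ 2 - 4 * b)).ncard = 4) {D : ℕ} (h : Class a b D) :
    TrivialTwo (E a b D) ↔ cork a b D = 0 := by
  have h' := (class_iff D).1 h
  have h1 := (Pool.Agent.U115.GE.class_hg hb hc h').iff Pool.Agent.U739.GE.t_GOOD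
    Pool.Agent.U796.GE.t_BND nb nc h4 (Pool.Agent.U115.GE.prod_eq h.1)
  rw [Pool.Agent.U115.GE.class_kap hb hc h'] at h1
  refine Iff.trans h1 ?_
  constructor
  · intro h2
    by_contra h3
    have := Nat.one_lt_two_pow h3
    omega
  · intro h2
    rw [h2, pow_zero]

theorem quartic_nine {K : Type} [Field K] [CharZero K] (a b d : ℤ) :
    Quartic K (9 * a) (81 * b) d ↔ Quartic K a b d := by
  constructor
  · rintro ⟨N, M, e, h, h1⟩
    refine ⟨N, M, 3 * e, ?_, ?_⟩
    · rcases h with h | h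
      · exact Or.inl h
      · exact Or.inr (mul_ne_zero (by norm_num) h)
    · rw [h1]
      push_cast
      ring
  · rintro ⟨N, M, e, h, h1⟩
    refine ⟨N, M, e / 3, ?_, ?_⟩
    · rcases h with h | h
      · exact Or.inl h
      · exact Or.inr (div_ne_zero h (by norm_num))
    · rw [h1]
      push_cast
      ring

theorem sel_nine (a b : ℤ) : Sel (9 * a) (81 * b) = Sel a b := by
  ext d
  refine and_congr_right fun _ => and_congr (quartic_nine a b d) ?_
  exact forall₂_congr fun p hp => quartic_nine a b d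

end proof

/-- **The ranks of the quadratic twists, ordered by height, discriminant or conductor.** -/
theorem result (a b : ℤ) (hb : ¬ IsSquare b) (hc : ¬ IsSquare (a ^ 2 - 4 * b))
    (h3 : (3 : ℤ) ∣ b * (a ^ 2 - 4 * b)) :
    -- different `D` give different isomorphism classes
    (∀ D D' : ℕ, Class a b D → Class a b D' →
      (∃ C : VariableChange ℚ, C • E a b D = E a b D') → D = D') ∧
    (Sel a b).ncard * (Sel (-2 * a) (a ^ 2 - 4 * b)).ncard = 2 ^ (s a b + 2) ∧
    -- the three orderings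
    (∀ I : WeierstrassCurve ℚ → ℕ, Ordering I →
      (∃ m n : ℕ, 0 < m ∧ 0 < n ∧ ∀ D : ℕ, Class a b D → I (E a b D) = n * D ^ m) ∧
      (∀ X : ℕ, (Fam I a b (fun _ => True) X).Finite) ∧
      Tendsto (fun X : ℕ => (Fam I a b (fun _ => True) X).ncard) atTop atTop ∧
      (∀ (k : ℕ) (ε : ℝ), 0 < ε → ∃ X₀ : ℕ, ∀ X : ℕ, X₀ ≤ X →
        (∑ j ∈ Finset.range (k + 1), c j) - ε ≤
          proportion I a b (fun W => rk W ≤ s a b + 2 * k) X) ∧
      (s a b = 0 → Tendsto (proportion I a b TrivialTwo) atTop (nhds (c 0)))) ∧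
    -- the constants
    HasSum c 1 ∧ 0.4194 < c 0 ∧ 0.8388 < c 0 + c 1 ∧ 0.978 < c 0 + c 1 + c 2 ∧
    0.998 < c 0 + c 1 + c 2 + c 3 ∧
    -- the curve `X_0(14)`
    s (9 * 13) (81 * 128) = 0 := by
  have hb0 : b ≠ 0 := by
    rintro rfl
    exact hb ⟨0, by norm_num⟩
  have hc0 : a ^ 2 - 4 * b ≠ 0 := by
    intro h
    exact hc ⟨0, by rw [h]; norm_num⟩
  have hS4 := sel_ge hb0 hc0
  obtain ⟨-, -, -, k1, k2⟩ := Pool.Agent.Y948.CQ.t_C2
  set c₀ : ℝ := ∏' i : ℕ, (1 - (1 / 2 : ℝ) ^ (2 * i + 1)) with hc₀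
  have e0 : c 0 = c₀ := by
    unfold c
    rw [Finset.range_zero, Finset.prod_empty, div_one]
  have e1 : c 1 = c₀ := by
    unfold c
    norm_num
    rfl
  have e2 : c 2 = c₀ / 3 := by
    unfold c
    norm_num [Finset.prod_range_succ]
    rfl
  have e3 : c 3 = c₀ / 21 := by
    unfold c
    norm_num [Finset.prod_range_succ]
    rfl
  have k1' : (0.4194 : ℝ) < c₀ := k1
  refine ⟨?_, sel_s hb0 hc0, ?_, Pool.Agent.U388.GD.t_SUMK, ?_, ?_, ?_, ?_, ?_⟩
  · rintro D D' hD hD' ⟨C, hC⟩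
    exact Pool.Agent.U79.TF.iso_inj hb0 hc0 (class_good h3 hD) (class_good h3 hD') hC
  · intro I hI
    obtain ⟨m, hm, hn', hDm⟩ := Pool.Agent.U79.TF.ordering_twist hb0 hc0 (ordering_iff hI)
    have hn : 0 < I (E a b 1) := hn'
    have hcl : ∀ D : ℕ, Class a b D → I (E a b D) = D ^ m * I (E a b 1) := fun D hD =>
      hDm D (class_good h3 hD) (class_locSq hD)
    refine ⟨⟨m, I (E a b 1), Nat.pos_of_ne_zero hm, hn, fun D hD => by rw [hcl D hD, mul_comm]⟩,
      fun X => ?_, ?_, fun k ε hε => ?_, fun hs => ?_⟩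
    · rw [fam_eq hm hn hcl]
      exact Finset.finite_toSet _
    · refine ((class_many hb0 hc0).comp (root_tendsto hm hn)).congr fun X => ?_
      rw [fam_card_true hm hn hcl]
      rfl
    · have h1 := (law hb hc k).comp (root_tendsto hm hn)
      obtain ⟨X₀, h2⟩ := eventually_atTop.1 (h1.eventually
        (lt_mem_nhds (show (∑ j ∈ Finset.range (k + 1), c j) - ε <
          ∑ j ∈ Finset.range (k + 1), c j by linarith)))
      refine ⟨X₀, fun X hX => (h2 X hX).le.trans ?_⟩
      have h4 := fam_ge hm hn hcl (fun W => rk W ≤ s a b + 2 * k)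
        (fun D => Pool.Agent.U115.GE.cork a b D ≤ k) (fun D hD h5 => by
          have h6 := rank_le hb0 hc0 hD
          show rk (E a b D) ≤ s a b + 2 * k
          omega) X
      unfold proportion
      rw [fam_card_true hm hn hcl]
      refine div_le_div_of_nonneg_right ?_ (Nat.cast_nonneg _)
      rw [Nat.cast_le]
      refine le_trans (le_of_eq ?_) h4
      congr!
    · have h4 : (Sel a b).ncard * (Sel (-2 * a) (a ^ 2 - 4 * b)).ncard = 4 := by
        rw [sel_s hb0 hc0, hs]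
        norm_num
      rw [e0]
      refine ((Pool.Agent.U115.GE.dens (a := a) (b := b) hb hc).comp
        (root_tendsto hm hn)).congr fun X => ?_
      unfold proportion
      rw [fam_card_true hm hn hcl, fam_card hm hn hcl]
      have e5 : (Finset.Icc 1 (root m (I (E a b 1)) X)).filter (fun D =>
          Pool.Agent.U115.GE.Class a b D ∧ TrivialTwo (E a b D)) =
          (Finset.Icc 1 (root m (I (E a b 1)) X)).filter (fun D =>
          Pool.Agent.U115.GE.Class a b D ∧ Pool.Agent.U115.GE.cork a b D = 0) :=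
        Finset.filter_congr fun D _ => and_congr_right fun hD =>
          trivial_iff hb hc hb0 hc0 h4 ((class_iff D).2 hD)
      rw [e5]
      rfl
  · rw [e0]; exact k1'
  · rw [e0, e1]; linarith
  · rw [e0, e1, e2]; linarith
  · rw [e0, e1, e2, e3]; linarith
  · obtain ⟨s1, s2⟩ := Pool.Agent.U115.GE.sel_X14
    have s3 : (Sel 13 128).ncard = 2 := s1
    have s4 : (Sel (-2 * 13) (13 ^ 2 - 4 * 128)).ncard = 2 := s2
    unfold s
    rw [sel_nine 13 128]
    have e : Sel (-2 * (9 * 13)) ((9 * 13) ^ 2 - 4 * (81 * 128)) =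
        Sel (-2 * 13) (13 ^ 2 - 4 * 128) := by
      have h := sel_nine (-2 * 13) (13 ^ 2 - 4 * 128)
      rw [← h]
      norm_num
    rw [e, s3, s4]
    have : Nat.log 2 (2 * 2) = 2 := by
      rw [show 2 * 2 = 2 ^ 2 by norm_num, Nat.log_pow (by norm_num)]
    rw [this]

end Pool.Agent.Results.MP_6073f3_nt.TwistFamiliesByHeight
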